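import Pool.Agent.Helper43K9.NH.Low

set_option autoImplicit false
set_option linter.unusedSectionVars false
set_option linter.unusedVariables false

namespace Pool.Agent.Helper43K9.NH

open Pool.Agent.H436R3.Fol Pool.Agent.H436R3.KT Pool.Agent.W497.Mld MvPolynomial Matrix
open Pool.Agent.TH165.ACC (pr ex Prim Cn Hs lead part mldsR pr_add pr_zero pr_neg pr_sub pr_smul
  pr_smul_right ex_add ex_inj exists_nat_ex coeff_euler support_euler)

variable {n d : ℕ} {L : Type} [Field L] [Algebra ℂ L]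

/-! ### over the germ -/

theorem R_le' {g : HypGerm d L} {w : Fin (d + 1) → ℤ} (h : Inn g.E w) :
    g.X.R ≤ AA g.y (Hs w) := by
  rw [g.hR]
  refine AA_mono fun m hm => ?_
  change 0 ≤ pr m w
  by_cases h0 : m = 0
  · rw [h0, pr_zero]
  · exact (h m hm h0).le

theorem pos_sub {g : HypGerm d L} {v : DVal L} (h : Inn g.E (wt g.y v)) :
    ∀ x : L, x ∈ AA g.y (Cn g.E) → ∀ hx : x ∈ g.X.R,
      v.Pos (x - algebraMap ℂ L (g.P ⟨x, hx⟩)) := by
  have hR : ∀ x ∈ AA g.y (Cn g.E), x ∈ g.X.R := fun x hx => by rw [g.hR]; exact hx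
  have hreg : ∀ x ∈ g.X.R, v.Reg x := by
    intro x hx
    exact reg_AA g.yne (fun m hm => hm) (R_le' h hx)
  intro x hx
  induction hx using Algebra.adjoin_induction with
  | mem x hx =>
    intro hx'
    obtain ⟨m, hm, rfl⟩ := hx
    by_cases h0 : m = 0
    · subst h0
      have h1 : (⟨ch g.y 0, hx'⟩ : g.X.R) = 1 := Subtype.ext ch_zero
      rw [h1, map_one, ch_zero, map_one, sub_self]
      exact Or.inl rfl
    · rw [g.hP ⟨ch g.y m, hx'⟩ m hm h0 rfl, map_zero, sub_zero]
      right
      rw [ord_ch g.yne]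
      exact h m hm h0
  | algebraMap r =>
    intro hx'
    have h1 : (⟨algebraMap ℂ L r, hx'⟩ : g.X.R) = algebraMap ℂ g.X.R r := Subtype.ext rfl
    rw [h1, AlgHom.commutes]
    left
    exact sub_self _
  | add x z hx hz ihx ihz =>
    intro hxz
    have h1 := ihx (hR x hx)
    have h2 := ihz (hR z hz)
    have h3 : (⟨x + z, hxz⟩ : g.X.R) = ⟨x, hR x hx⟩ + ⟨z, hR z hz⟩ := Subtype.ext rfl
    rw [h3, map_add, map_add]
    have h4 := v.pos_add h1 h2
    convert h4 using 1
    ring
  | mul x z hx hz ihx ihz =>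
    intro hxz
    have h1 := ihx (hR x hx)
    have h2 := ihz (hR z hz)
    have h3 : (⟨x * z, hxz⟩ : g.X.R) = ⟨x, hR x hx⟩ * ⟨z, hR z hz⟩ := Subtype.ext rfl
    rw [h3, map_mul, map_mul]
    have h4 := v.pos_add (v.pos_mul_left (hreg z (hR z hz)) h1)
      (v.pos_mul_left (v.reg_const (g.P ⟨x, hR x hx⟩)) h2)
    convert h4 using 1
    ring

theorem over_of_local {g : HypGerm d L} {v : DVal L} (h : Inn g.E (wt g.y v))
    (hw : Prim (wt g.y v)) (hv : IsLocalRing' (AA g.y (Hs (wt g.y v))) v) :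
    IsOverGerm g.P v := by
  refine ⟨⟨_, fg_Hs' g.yne hw, R_le' h, hv⟩, fun f => ?_⟩
  have hmem : ∀ x, x ∈ g.X.R → x ∈ AA g.y (Cn g.E) := fun x hx => by rw [← g.hR]; exact hx
  have h1 := pos_sub h (f : L) (hmem _ f.2) f.2
  have h2 : (⟨(f : L), f.2⟩ : g.X.R) = f := rfl
  rw [h2] at h1
  constructor
  · intro hp
    by_contra h0
    have h3 : v.Pos (algebraMap ℂ L (g.P f)) := by
      have h4 := v.pos_add hp (v.pos_mul_left (v.reg_neg v.reg_one) h1)
      convert h4 using 1
      ring
    rcases h3 with h3 | h3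
    · exact h0 ((map_eq_zero_iff _ (algebraMap ℂ L).injective).1 h3)
    · rw [v.const _ h0] at h3
      exact lt_irrefl _ h3
  · intro h0
    rw [h0, map_zero, sub_zero] at h1
    exact h1

/-! ### logarithmic derivatives -/

/-- the logarithmic derivative of a Laurent monomial -/
theorem der_ch {y : Fin n → L} (hy : ∀ i, y i ≠ 0) (D : Derivation ℂ L L) (m : Fin n → ℤ) :
    D (ch y m) = ch y m * ∑ k, (m k : L) * (D (y k) / y k) := by
  have key : ∀ s : Finset (Fin n), D (∏ j ∈ s, y j ^ m j) =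
      (∏ j ∈ s, y j ^ m j) * ∑ k ∈ s, (m k : L) * (D (y k) / y k) := by
    intro s
    induction s using Finset.induction_on with
    | empty => simp
    | insert a s ha ih =>
      rw [Finset.prod_insert ha, Finset.sum_insert ha, Derivation.leibniz, ih]
      have h1 := logDer_zpow (D := D) (hy a) (m a)
      rw [div_eq_iff (zpow_ne_zero _ (hy a))] at h1
      rw [h1]
      simp only [smul_eq_mul]
      ring
  exact key Finset.univ

theorem aeval_euler {y : Fin n → L} (k : Fin n) (p : MvPolynomial (Fin n) ℂ) :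
    aeval y (X k * pderiv k p) = ∑ s ∈ p.support, ((s k : ℕ) : L) *
      (algebraMap ℂ L (p.coeff s) * ch y (ex s)) := by
  rw [aeval_eq_sum, Finset.sum_subset (support_euler k p)]
  · refine Finset.sum_congr rfl fun s _ => ?_
    rw [coeff_euler, map_mul, map_natCast, mul_assoc]
  · intro s _ hs
    rw [notMem_support_iff] at hs
    rw [hs, map_zero, zero_mul]

theorem der_aeval {y : Fin n → L} (hy : ∀ i, y i ≠ 0) (D : Derivation ℂ L L)
    (p : MvPolynomial (Fin n) ℂ) :
    D (aeval y p) = ∑ k, aeval y (X k * pderiv k p) * (D (y k) / y k) := by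
  simp only [aeval_euler, Finset.sum_mul]
  rw [Finset.sum_comm, aeval_eq_sum, map_sum]
  refine Finset.sum_congr rfl fun s _ => ?_
  rw [Derivation.leibniz, Derivation.map_algebraMap, smul_zero, add_zero, smul_eq_mul, der_ch hy,
    Finset.mul_sum, Finset.mul_sum]
  refine Finset.sum_congr rfl fun k _ => ?_
  have : (((ex s) k : ℤ) : L) = ((s k : ℕ) : L) := by
    simp [Pool.Agent.TH165.ACC.ex]
  rw [this]
  ring

theorem ge_of_weights {y : Fin n → L} (hy : ∀ i, y i ≠ 0) {v : DVal L}
    {q : MvPolynomial (Fin n) ℂ} {m : ℤ} (h : ∀ s ∈ q.support, m ≤ pr (ex s) (wt y v)) :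
    aeval y q = 0 ∨ m ≤ v.ord (aeval y q) := by
  obtain ⟨π, hπ, h1⟩ := v.surj
  by_cases h0 : aeval y q = 0
  · exact Or.inl h0
  right
  have h2 := (reg_mul_zpow' hy hπ h1 h).1
  have h3 := v.ord_nonneg (mul_ne_zero h0 (zpow_ne_zero _ hπ)) h2
  rw [v.map_mul _ _ h0 (zpow_ne_zero _ hπ), v.ord_zpow hπ, h1] at h3
  omega

theorem reg_div_of {v : DVal L} {a b : L} {m : ℤ} (ha : a = 0 ∨ m ≤ v.ord a) (hb : b ≠ 0)
    (hb' : v.ord b ≤ m) : v.Reg (a / b) := by
  by_cases h0 : a = 0
  · left; rw [h0, zero_div]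
  · right
    have := ha.resolve_left h0
    rw [v.ord_div h0 hb]
    omega

theorem pos_div_of {v : DVal L} {a b : L} {m : ℤ} (ha : a = 0 ∨ m + 1 ≤ v.ord a) (hb : b ≠ 0)
    (hb' : v.ord b ≤ m) : v.Pos (a / b) := by
  by_cases h0 : a = 0
  · left; rw [h0, zero_div]
  · right
    have := ha.resolve_left h0
    rw [v.ord_div h0 hb]
    omega

theorem der_AA {y : Fin n → L} {C : Set (Fin n → ℤ)} {v : DVal L} {D : Derivation ℂ L L}
    (h1 : ∀ f ∈ AA y C, v.Reg f) (h2 : ∀ m ∈ C, v.Reg (D (ch y m))) {f : L}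
    (hf : f ∈ AA y C) : v.Reg (D f) := by
  induction hf using Algebra.adjoin_induction with
  | mem x hx =>
    obtain ⟨m, hm, rfl⟩ := hx
    exact h2 m hm
  | algebraMap r => rw [Derivation.map_algebraMap]; exact v.reg_zero
  | add x z _ _ hx hz => rw [map_add]; exact v.reg_add hx hz
  | mul x z hx' hz' hx hz =>
    rw [Derivation.leibniz, smul_eq_mul, smul_eq_mul]
    exact v.reg_add (v.reg_mul (h1 x hx') hz) (v.reg_mul (h1 z hz') hx)

/-- the weighted Euler relation: `∑ w_i θ_i F` has order bigger than `φ` -/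
theorem euler_pos {g : HypGerm d L} {v : DVal L} :
    (∑ k, (wt g.y v k : L) * aeval g.y (X k * pderiv k g.F)) = 0 ∨
      phi (expo g.F) (wt g.y v) + 1 ≤
        v.ord (∑ k, (wt g.y v k : L) * aeval g.y (X k * pderiv k g.F)) := by
  classical
  set w := wt g.y v with hw
  set m := phi (expo g.F) w with hm
  let q : MvPolynomial (Fin (d + 1)) ℂ :=
    ∑ k, C (w k : ℂ) * (X k * pderiv k g.F) - C (m : ℂ) * g.F
  have hq : ∀ s, q.coeff s = ((pr (ex s) w - m : ℤ) : ℂ) * g.F.coeff s := by
    intro s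
    simp only [q, coeff_sub, coeff_sum, coeff_C_mul, coeff_euler]
    rw [pr]
    push_cast
    rw [sub_mul, Finset.sum_mul]
    congr 1
    refine Finset.sum_congr rfl fun k _ => ?_
    simp only [Pool.Agent.TH165.ACC.ex]
    push_cast
    ring
  have h1 : aeval g.y q = ∑ k, (w k : L) * aeval g.y (X k * pderiv k g.F) := by
    have hF0 : aeval g.y g.F = 0 := (g.ker _).2 dvd_rfl
    simp only [q, map_sub, map_sum, map_mul (aeval g.y) (C _) _, aeval_C, hF0, mul_zero, sub_zero]
    refine Finset.sum_congr rfl fun k _ => ?_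
    rw [map_intCast]
  rw [← h1]
  refine ge_of_weights g.yne fun s hs => ?_
  rw [mem_support_iff, hq] at hs
  have h2 : g.F.coeff s ≠ 0 := right_ne_zero_of_mul hs
  have h3 : pr (ex s) w - m ≠ 0 := by
    intro h0
    rw [h0] at hs
    simp at hs
  have h4 := (phi_expo g.Fne w).2 s (mem_support_iff.2 h2)
  rw [← hw]
  omega

theorem can_trop {g : HypGerm d L} {v : DVal L} (h : Inn g.E (wt g.y v))
    (hw : Prim (wt g.y v)) (hv : IsLocalRing' (AA g.y (Hs (wt g.y v))) v) :
    IsCanOrd g.X.T v (-1 - phi (expo g.F) (wt g.y v)) := by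
  classical
  refine ⟨?_, fun m hm => by obtain ⟨A, hA0, hA, rfl⟩ := hm; exact can_low h A hA0 hA⟩
  have hy := g.yne
  obtain ⟨k0, hk0, hk⟩ := exists_index h
  obtain ⟨m1, hm1⟩ := hw
  set w := wt g.y v with hwd
  set φ := phi (expo g.F) w with hφ
  let θ : Fin (d + 1) → L := fun k => aeval g.y (X k * pderiv k g.F)
  let T : Fin d → Derivation ℂ L L := fun j => g.X.T.D (g.e.symm j)
  let Λ : Matrix (Fin d) (Fin d) L :=
    Matrix.of fun j i => T j (g.y (k0.succAbove i)) / g.y (k0.succAbove i)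
  have hΛ : Λ.det = (-1) ^ (k0 : ℕ) * θ k0 := g.res k0
  have hs : ((-1 : L) ^ (k0 : ℕ)) ≠ 0 := pow_ne_zero _ (by simp)
  have hΛ0 : Λ.det ≠ 0 := by rw [hΛ]; exact mul_ne_zero hs hk0
  have hΛu : IsUnit Λ.det := isUnit_iff_ne_zero.2 hΛ0
  have hΛord : v.ord Λ.det = φ := by
    rw [hΛ, v.map_mul _ _ hs hk0, ord_sign, zero_add]
    exact hk
  let D : Fin d → Derivation ℂ L L := fun i => ∑ j, Λ⁻¹ i j • T j
  -- logarithmic vectors
  have hD1 : ∀ i l, D i (g.y (k0.succAbove l)) / g.y (k0.succAbove l) = if i = l then 1 else 0 := by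
    intro i l
    have h1 : (Λ⁻¹ * Λ) i l = if i = l then 1 else 0 := by
      rw [Matrix.nonsing_inv_mul _ hΛu, Matrix.one_apply]
    rw [← h1, Matrix.mul_apply, der_sum_apply, Finset.sum_div]
    refine Finset.sum_congr rfl fun j _ => ?_
    simp only [Λ, Matrix.of_apply]
    rw [mul_div_assoc]
  have hD2 : ∀ i, D i (g.y k0) / g.y k0 = -(θ (k0.succAbove i) / θ k0) := by
    intro i
    have h1 := der_aeval hy (D i) g.F
    rw [(g.ker _).2 dvd_rfl, map_zero, Fin.sum_univ_succAbove _ k0] at h1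
    simp only [hD1] at h1
    rw [Finset.sum_eq_single i] at h1
    · rw [if_pos rfl, mul_one] at h1
      change 0 = θ k0 * _ + θ _ at h1
      have h2 : θ k0 ≠ 0 := hk0
      field_simp
      field_simp at h1
      linear_combination -h1
    · intro l _ hl
      rw [if_neg (Ne.symm hl), mul_zero]
    · intro h0; exact absurd (Finset.mem_univ _) h0
  have hDch : ∀ i m, D i (ch g.y m) = ch g.y m *
      ((m (k0.succAbove i) : L) - (m k0 : L) * (θ (k0.succAbove i) / θ k0)) := by
    intro i m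
    rw [der_ch hy, Fin.sum_univ_succAbove _ k0]
    simp only [hD1, hD2]
    rw [Finset.sum_eq_single i]
    · rw [if_pos rfl]
      ring
    · intro l _ hl
      rw [if_neg (Ne.symm hl), mul_zero]
    · intro h0; exact absurd (Finset.mem_univ _) h0
  have hθge : ∀ k, θ k = 0 ∨ φ ≤ v.ord (θ k) := fun k =>
    ge_of_weights hy fun s hs => (phi_expo g.Fne w).2 s (support_euler _ _ hs)
  have hq : ∀ k, v.Reg (θ k / θ k0) := fun k => reg_div_of (hθge k) hk0 hk.le
  have hDpres : ∀ i, Preserves v (D i) := by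
    intro i
    refine preserves_of v hv fun f hf => der_AA hv.1 (fun m hm => ?_) hf
    rw [hDch]
    refine v.reg_mul (hv.1 _ (ch_mem_AA hm)) ?_
    rw [sub_eq_add_neg]
    exact v.reg_add (v.reg_intCast _) (v.reg_neg (v.reg_mul (v.reg_intCast _) (hq _)))
  -- the special derivation
  let W : L := ∑ k, (w k : L) * θ k
  have hW : W = 0 ∨ φ + 1 ≤ v.ord W := euler_pos
  let c : Fin d → L := fun i => ch g.y (-m1) * (w (k0.succAbove i) : L)
  have hEch : ∀ m, (∑ i, c i • D i) (ch g.y m) =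
      ch g.y (m - m1) * ((pr m w : L) - (m k0 : L) * (W / θ k0)) := by
    intro m
    rw [der_sum_apply]
    simp only [hDch, c]
    have hk0' : θ k0 ≠ 0 := hk0
    have h1 : (pr m w : L) = (m k0 : L) * (w k0 : L) +
        ∑ i, (m (k0.succAbove i) : L) * (w (k0.succAbove i) : L) := by
      rw [pr]
      push_cast
      rw [Fin.sum_univ_succAbove _ k0]
    have h2 : W = (w k0 : L) * θ k0 + ∑ i, (w (k0.succAbove i) : L) * θ (k0.succAbove i) := by
      simp only [W]
      rw [Fin.sum_univ_succAbove _ k0]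
    have h3 : ch g.y (m - m1) = ch g.y m * ch g.y (-m1) := by
      rw [sub_eq_add_neg, ch_add hy]
    rw [h1, h2, h3, add_div, mul_div_cancel_right₀ _ hk0', Finset.sum_div]
    have h4 : ∀ i, ch g.y (-m1) * (w (k0.succAbove i) : L) * (ch g.y m *
        ((m (k0.succAbove i) : L) - (m k0 : L) * (θ (k0.succAbove i) / θ k0))) =
        ch g.y m * ch g.y (-m1) * ((m (k0.succAbove i) : L) * (w (k0.succAbove i) : L)) -
        ch g.y m * ch g.y (-m1) * ((m k0 : L) *
          ((w (k0.succAbove i) : L) * θ (k0.succAbove i) / θ k0)) := by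
      intro i
      ring
    rw [Finset.sum_congr rfl fun i _ => h4 i, Finset.sum_sub_distrib, ← Finset.mul_sum,
      ← Finset.mul_sum, ← Finset.mul_sum]
    ring
  have hEpres : Preserves v (∑ i, c i • D i) := by
    refine preserves_of v hv fun f hf => der_AA hv.1 (fun m hm => ?_) hf
    have hm' : 0 ≤ pr m w := hm
    rw [hEch]
    have hδ : v.Pos ((m k0 : L) * (W / θ k0)) :=
      v.pos_mul_left (v.reg_intCast _) (pos_div_of hW hk0 hk.le)
    have hordm : v.ord (ch g.y (m - m1)) = pr m w - 1 := by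
      rw [ord_ch hy, pr_sub]
      change pr m w - pr m1 w = _
      rw [hm1]
    by_cases h3 : pr m w = 0
    · rw [h3, Int.cast_zero, zero_sub]
      rcases hδ with h4 | h4
      · left; rw [h4, neg_zero, mul_zero]
      · by_cases h5 : (m k0 : L) * (W / θ k0) = 0
        · left; rw [h5, neg_zero, mul_zero]
        right
        rw [v.map_mul _ _ (ch_ne hy _) (neg_ne_zero.2 h5), v.ord_neg h5, hordm]
        omega
    · refine v.reg_mul (Or.inr (by rw [hordm]; omega)) ?_
      rw [sub_eq_add_neg]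
      refine v.reg_add (v.reg_intCast _) (v.reg_neg ?_)
      rcases hδ with h4 | h4
      · exact Or.inl h4
      · exact Or.inr h4.le
  -- a nonzero weight outside `k0`
  obtain ⟨i0, hi0⟩ : ∃ i : Fin d, w (k0.succAbove i) ≠ 0 := by
    by_contra h0
    push Not at h0
    have h2 : W = (w k0 : L) * θ k0 := by
      simp only [W]
      rw [Fin.sum_univ_succAbove _ k0]
      simp [h0]
    have h3 : w k0 ≠ 0 := by
      intro h3
      rw [pr, Fin.sum_univ_succAbove _ k0] at hm1
      simp [h0, h3] at hm1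
    have h4 : (w k0 : L) ≠ 0 := by
      rw [Ne, ← map_intCast (algebraMap ℂ L), map_eq_zero_iff _ (algebraMap ℂ L).injective]
      exact_mod_cast h3
    have h5 : v.ord (w k0 : L) = 0 := by
      have := v.const (w k0 : ℂ) (by exact_mod_cast h3)
      rwa [map_intCast] at this
    rw [h2] at hW
    rcases hW with h6 | h6
    · exact mul_ne_zero h4 hk0 h6
    · rw [v.map_mul _ _ h4 hk0, h5] at h6
      have h7 : v.ord (θ k0) = φ := hk
      omega
  have hwi : (w (k0.succAbove i0) : L) ≠ 0 := by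
    rw [Ne, ← map_intCast (algebraMap ℂ L), map_eq_zero_iff _ (algebraMap ℂ L).injective]
    exact_mod_cast hi0
  let B : Matrix (Fin d) (Fin d) L := (1 : Matrix (Fin d) (Fin d) L).updateRow i0 c
  have hdet : B.det = c i0 := by
    have h1 := Matrix.det_updateRow_sum (1 : Matrix (Fin d) (Fin d) L) i0 c
    have h2 : (∑ k, c k • (1 : Matrix (Fin d) (Fin d) L) k) = c := by
      funext j
      rw [Finset.sum_apply, Finset.sum_eq_single j]
      · simp
      · intro k _ hk
        simp [Matrix.one_apply_ne hk]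
      · intro h; exact absurd (Finset.mem_univ _) h
    rw [h2, det_one, smul_eq_mul, mul_one] at h1
    exact h1
  have hci : c i0 ≠ 0 := mul_ne_zero (ch_ne hy _) hwi
  have hB0 : ∀ j, B i0 j = c j := fun j => by simp [B]
  have hB1 : ∀ i j, i ≠ i0 → B i j = (1 : Matrix (Fin d) (Fin d) L) i j := fun i j h => by
    simp [B, updateRow_ne h]
  have hinv : (Λ⁻¹).det ≠ 0 := by
    rw [Matrix.det_nonsing_inv, Ring.inverse_eq_inv']
    exact inv_ne_zero hΛ0
  have hrow : ∀ i : Fin g.X.d, (∑ j, ((B * Λ⁻¹).submatrix g.e g.e) i j • g.X.T.D j) =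
      ∑ l, B (g.e i) l • D l := by
    intro i
    simp only [D, Finset.smul_sum, smul_smul]
    rw [Finset.sum_comm, ← g.e.sum_comp]
    refine Finset.sum_congr rfl fun j _ => ?_
    rw [Matrix.submatrix_apply, Matrix.mul_apply, Finset.sum_smul]
    refine Finset.sum_congr rfl fun l _ => ?_
    simp only [T, Equiv.symm_apply_apply]
  refine ⟨(B * Λ⁻¹).submatrix g.e g.e, ?_, fun i => ?_, ?_⟩
  · rw [det_submatrix_equiv_self, det_mul, hdet]
    exact mul_ne_zero hci hinv
  · rw [hrow]
    by_cases h1 : g.e i = i0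
    · rw [h1]
      simp only [hB0]
      exact hEpres
    · have h2 : (∑ l, B (g.e i) l • D l) = D (g.e i) := by
        rw [Finset.sum_eq_single (g.e i)]
        · rw [hB1 _ _ h1, Matrix.one_apply_eq, one_smul]
        · intro j _ hj
          rw [hB1 _ _ h1, Matrix.one_apply_ne hj.symm, zero_smul]
        · intro h
          exact absurd (Finset.mem_univ _) h
      rw [h2]
      exact hDpres _
  · rw [det_submatrix_equiv_self, det_mul, hdet, v.map_mul _ _ hci hinv, Matrix.det_nonsing_inv,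
      Ring.inverse_eq_inv', v.ord_inv hΛ0, hΛord, v.map_mul _ _ (ch_ne hy _) hwi, ord_ch hy,
      pr_neg]
    have h4 : v.ord (w (k0.succAbove i0) : L) = 0 := by
      have := v.const (w (k0.succAbove i0) : ℂ) (by exact_mod_cast hi0)
      rwa [map_intCast] at this
    rw [h4]
    change -pr m1 w + 0 + -φ = _
    rw [hm1]
    ring

end Pool.Agent.Helper43K9.NH
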