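import Pool.Agent.Helper43K9.NH.Base
import Pool.Agent.TH165.ACC.GMain

/-! Leaf COMB (helper80) of the relay of helper43, MP_df5e61_ag. -/

set_option autoImplicit false
set_option linter.unusedSectionVars false
set_option linter.unusedVariables false

namespace Pool.Agent.Helper43K9.NH

open Pool.Agent.H436R3.Fol Pool.Agent.H436R3.KT Pool.Agent.W497.Mld MvPolynomial
open Pool.Agent.TH165.ACC (pr ex Prim Cn Hs lead part mldsR pr_add pr_zero pr_neg pr_sub pr_smul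
  pr_smul_right ex_add ex_inj exists_nat_ex)
open Pool.Agent.TH165.ACC (Coord coord_pr GE GE_finite coord_of_mem exists_simplex DualVec ordAlong
  logDisc)

variable {n d : ℕ}

namespace CombL

theorem inn_of_coord {N : ℕ} {E : Fin N → Fin n → ℤ} {a : Fin d → Fin N} {w w0 : Fin d → ℝ}
    {u u0 : Fin n → ℤ} (h0 : Coord (fun i => E (a i)) w0 u0) (hu0 : Inn E u0)
    (h : Coord (fun i => E (a i)) w u) (hw : ∀ i, 0 < w i) : Inn E u := by
  intro m hm hm0
  have h1 : (0 : ℝ) < pr m u := by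
    rw [coord_pr h]
    obtain ⟨i, hi⟩ : ∃ i, pr m (E (a i)) ≠ 0 := by
      by_contra h2
      push Not at h2
      have h3 := hu0 m hm hm0
      have h4 : (pr m u0 : ℝ) = 0 := by
        rw [coord_pr h0]
        exact Finset.sum_eq_zero fun i _ => by rw [h2 i, Int.cast_zero, mul_zero]
      have h5 : pr m u0 = 0 := by exact_mod_cast h4
      omega
    refine Finset.sum_pos' (fun j _ => mul_nonneg (hw j).le (by exact_mod_cast hm (a j)))
      ⟨i, Finset.mem_univ i, mul_pos (hw i) ?_⟩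
    have := hm (a i)
    exact_mod_cast lt_of_le_of_ne this (Ne.symm hi)
  exact_mod_cast h1

/-- the monomials in the coordinates of the simplicial cone -/
def SF (S : Finset (Fin n → ℤ)) (A : Fin d → Fin n → ℤ) : Set (Fin d → ℕ) :=
  {q | ∃ m ∈ S, ∀ i, (q i : ℤ) = pr m (A i) - phi S (A i)}

theorem SF_mem {S : Finset (Fin n → ℤ)} (hS : S.Nonempty) {A : Fin d → Fin n → ℤ}
    {m : Fin n → ℤ} (hm : m ∈ S) : ∃ q ∈ SF S A, ∀ i, (q i : ℤ) = pr m (A i) - phi S (A i) := by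
  have h : ∀ i, (((pr m (A i) - phi S (A i)).toNat : ℕ) : ℤ) = pr m (A i) - phi S (A i) := by
    intro i
    have := (phi_spec hS (A i)).2 m hm
    omega
  exact ⟨fun i => (pr m (A i) - phi S (A i)).toNat, ⟨m, hm, h⟩, h⟩

theorem key {S : Finset (Fin n → ℤ)} {A : Fin d → Fin n → ℤ} {w : Fin d → ℝ} {u : Fin n → ℤ}
    (hc : Coord A w u) {q : Fin d → ℕ} {m : Fin n → ℤ}
    (h : ∀ i, (q i : ℤ) = pr m (A i) - phi S (A i)) :
    ∑ i, (q i : ℝ) * w i = (pr m u : ℝ) - ∑ i, w i * (phi S (A i) : ℝ) := by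
  rw [coord_pr hc, ← Finset.sum_sub_distrib]
  refine Finset.sum_congr rfl fun i _ => ?_
  have h1 : (q i : ℝ) = (pr m (A i) : ℝ) - (phi S (A i) : ℝ) := by exact_mod_cast h i
  rw [h1]
  ring

theorem ordAlong_SF {S : Finset (Fin n → ℤ)} (hS : S.Nonempty) {A : Fin d → Fin n → ℤ}
    {w : Fin d → ℝ} {u : Fin n → ℤ} (hc : Coord A w u) :
    ordAlong (SF S A) w = (phi S u : ℝ) - ∑ i, w i * (phi S (A i) : ℝ) := by
  apply IsLeast.csInf_eq
  constructor
  · obtain ⟨⟨m, hm, h1⟩, -⟩ := phi_spec hS u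
    obtain ⟨q, hq, h2⟩ := SF_mem hS (A := A) hm
    refine ⟨q, hq, ?_⟩
    change ∑ i, (q i : ℝ) * w i = _
    rw [key hc h2, h1]
  · rintro _ ⟨q, ⟨m, hm, h2⟩, rfl⟩
    change _ ≤ ∑ i, (q i : ℝ) * w i
    rw [key hc h2]
    have := (phi_spec hS u).2 m hm
    have h3 : (phi S u : ℝ) ≤ (pr m u : ℝ) := by exact_mod_cast this
    linarith

theorem dot_coord (ψ : Fin n → ℝ) {A : Fin d → Fin n → ℤ} {w : Fin d → ℝ} {u : Fin n → ℤ}
    (hc : Coord A w u) : dot ψ u = ∑ i, w i * dot ψ (A i) := by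
  unfold dot
  simp only [Finset.mul_sum]
  rw [Finset.sum_comm]
  refine Finset.sum_congr rfl fun k _ => ?_
  rw [← hc k, Finset.mul_sum]
  exact Finset.sum_congr rfl fun i _ => by ring

end CombL

open CombL

theorem mem_mlds {N : ℕ} {E : Fin N → Fin n → ℤ} {S : Finset (Fin n → ℤ)} (hS : S.Nonempty)
    {ψ : Fin n → ℝ} {β : Fin N → ℝ} (hβ : ∀ i, 0 ≤ β i)
    (hψ : ∀ i, dot ψ (E i) = 1 - β i + (phi S (E i) : ℝ)) {Γ : Set ℝ} (h1 : (1 : ℝ) ∈ Γ)
    (hΓ : ∀ i, β i ≠ 0 → β i ∈ Γ) {a : ℝ} {u0 : Fin n → ℤ} (hu0 : Inn E u0)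
    (h0 : aa ψ S u0 = a) (hmin : ∀ u, Inn E u → a ≤ aa ψ S u) :
    ∃ d ≤ n, ∃ r, a ∈ mldsR d r Γ := by
  classical
  have hcone : ∀ m ∈ Cn E, 0 ≤ pr m u0 := by
    intro m hm
    by_cases hm0 : m = 0
    · rw [hm0, pr_zero]
    · exact (hu0 m hm hm0).le
  obtain ⟨d, b, w0, hw0, hc0, D, hD⟩ := exists_simplex hcone
  have hc0' : Coord (fun i => E (b i)) w0 u0 := hc0
  let A : Fin d → Fin n → ℤ := fun i => E (b i)
  let ι : Type := {i : Fin d // β (b i) ≠ 0} ⊕ {x : Unit // (0 : Fin d → ℕ) ∉ SF S A}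
  let Si : ι → Set (Fin d → ℕ) :=
    Sum.elim (fun i => {(Pi.single i.1 1 : Fin d → ℕ)}) fun _ => SF S A
  let ci : ι → ℝ := Sum.elim (fun i => β (b i.1)) fun _ => 1
  let φ : Fin (Fintype.card ι) ≃ ι := (Fintype.equivFin _).symm
  -- the log discrepancies
  have hkey : ∀ (w : Fin d → ℝ) (u : Fin n → ℤ), (∀ i, 0 ≤ w i) → Coord A w u →
      logDisc (fun j => Si (φ j)) (fun j => ci (φ j)) w = aa ψ S u := by
    intro w u hw hc
    have e1 : ∑ j, ci (φ j) * ordAlong (Si (φ j)) w = ∑ i, β (b i) * w i +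
        ((phi S u : ℝ) - ∑ i, w i * (phi S (A i) : ℝ)) := by
      rw [φ.sum_comp fun x => ci x * ordAlong (Si x) w, Fintype.sum_sum_type]
      congr 1
      · have h3 : ∑ i : {i : Fin d // β (b i) ≠ 0}, ci (Sum.inl i) * ordAlong (Si (Sum.inl i)) w =
            ∑ i : {i : Fin d // β (b i) ≠ 0}, β (b i.1) * w i.1 :=
          Finset.sum_congr rfl fun i _ => by
            change β (b i.1) * ordAlong {(Pi.single i.1 1 : Fin d → ℕ)} w = _
            rw [Pool.Agent.TH165.ACC.ordAlong_single]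
        rw [h3, ← Finset.sum_subtype (Finset.univ.filter fun i => β (b i) ≠ 0) (by simp)
          fun i => β (b i) * w i]
        refine Finset.sum_filter_of_ne fun i _ h4 h5 => h4 ?_
        rw [h5, zero_mul]
      · by_cases h6 : (0 : Fin d → ℕ) ∈ SF S A
        · have h7 : IsEmpty {x : Unit // (0 : Fin d → ℕ) ∉ SF S A} := ⟨fun x => x.2 h6⟩
          rw [Fintype.sum_empty, ← ordAlong_SF hS hc,
            Pool.Agent.TH165.ACC.ordAlong_of_zero h6 hw]
        · have h7 : Unique {x : Unit // (0 : Fin d → ℕ) ∉ SF S A} :=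
            { default := ⟨(), h6⟩
              uniq := fun x => Subtype.ext (Subsingleton.elim _ _) }
          rw [Fintype.sum_unique]
          change (1 : ℝ) * ordAlong (SF S A) w = _
          rw [one_mul, ordAlong_SF hS hc]
    have e2 : dot ψ u = ∑ i, w i * (1 - β (b i) + (phi S (A i) : ℝ)) := by
      rw [dot_coord ψ hc]
      exact Finset.sum_congr rfl fun i _ => by rw [hψ (b i)]
    rw [logDisc, e1, aa, e2]
    have e3 : ∑ i, w i * (1 - β (b i) + (phi S (A i) : ℝ)) =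
        ∑ i, w i - ∑ i, β (b i) * w i + ∑ i, w i * (phi S (A i) : ℝ) := by
      rw [← Finset.sum_sub_distrib, ← Finset.sum_add_distrib]
      exact Finset.sum_congr rfl fun i _ => by ring
    rw [e3]
    ring
  refine ⟨d, hD.le, Fintype.card ι, GE A, fun j => Si (φ j), fun j => ci (φ j), GE_finite hD, ?_,
    IsLeast.isGLB ⟨?_, ?_⟩⟩
  · intro j
    change (Si (φ j)).Nonempty ∧ 0 ∉ Si (φ j) ∧ ci (φ j) ∈ Γ ∧ 0 < ci (φ j)
    generalize φ j = x
    rcases x with ⟨i, hi⟩ | ⟨_, hx⟩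
    · refine ⟨⟨_, rfl⟩, ?_, hΓ _ hi, lt_of_le_of_ne (hβ _) (Ne.symm hi)⟩
      intro h
      have h3 := congrFun (Set.mem_singleton_iff.1 h) i
      simp at h3
    · refine ⟨?_, hx, h1, one_pos⟩
      obtain ⟨m, hm⟩ := hS
      obtain ⟨q, hq, -⟩ := SF_mem ⟨m, hm⟩ (A := A) hm
      exact ⟨q, hq⟩
  · exact ⟨w0, hw0, ⟨w0, _, rfl, hc0'⟩, by rw [hkey w0 u0 (fun i => (hw0 i).le) hc0', h0]⟩
  · rintro _ ⟨w, hw, hwG, rfl⟩
    obtain ⟨u, hu⟩ := coord_of_mem hwG
    rw [hkey w u (fun i => (hw i).le) hu]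
    exact hmin u (inn_of_coord hc0' hu0 hu hw)

end Pool.Agent.Helper43K9.NH
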