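import Pool.Agent.Helper43K9.NH.Base

/-!
# [HOM] Homogeneous polynomials, factors of the initial form
-/

set_option autoImplicit false
set_option linter.unusedSectionVars false
set_option linter.unusedVariables false

namespace Pool.Agent.Helper43K9.NH

open Pool.Agent.H436R3.Fol Pool.Agent.H436R3.KT Pool.Agent.W497.Mld MvPolynomial
open Pool.Agent.TH165.ACC (pr ex Prim Cn Hs lead part mldsR pr_add pr_zero pr_neg pr_sub pr_smul
  pr_smul_right ex_add ex_inj exists_nat_ex)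

variable {n d : ℕ} {L : Type} [Field L] [Algebra ℂ L]

namespace Hom

/-- the least weight, additive -/
theorem exists_min {w : Fin n → ℤ} (hw : Prim w) :
    ∃ μ : MvPolynomial (Fin n) ℂ → ℤ, (∀ p, p ≠ 0 → (∃ s ∈ p.support, μ p = pr (ex s) w) ∧
      ∀ s ∈ p.support, μ p ≤ pr (ex s) w) ∧ ∀ p q, p ≠ 0 → q ≠ 0 → μ (p * q) = μ p + μ q := by
  obtain ⟨v, hv, htv⟩ := Pool.Agent.TH165.ACC.exists_mon
    (K := FractionRing (MvPolynomial (Fin n) ℂ)) hw
  refine ⟨fun p => v.ord (jo (Fin n) (FractionRing (MvPolynomial (Fin n) ℂ)) p), ?_, ?_⟩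
  · intro p hp
    have := hv p hp
    rw [htv] at this
    exact this
  · intro p q hp hq
    change v.ord (jo (Fin n) _ (p * q)) = v.ord (jo (Fin n) _ p) + v.ord (jo (Fin n) _ q)
    rw [map_mul]
    exact v.map_mul _ _ (jo_ne hp) (jo_ne hq)

theorem prim_neg {w : Fin n → ℤ} (hw : Prim w) : Prim (-w) := by
  obtain ⟨m, hm⟩ := hw
  refine ⟨-m, ?_⟩
  have : pr (-m) (-w) = pr m w := by
    simp only [pr, Pi.neg_apply, neg_mul_neg]
  rw [this, hm]

theorem pr_neg_right (m w : Fin n → ℤ) : pr m (-w) = -pr m w := by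
  simp only [pr, Pi.neg_apply, mul_neg, Finset.sum_neg_distrib]

end Hom

open Hom

/-- the factors of a `w`-homogeneous polynomial are `w`-homogeneous -/
theorem homog_of_mul {w : Fin n → ℤ} (hw : Prim w) {p q : MvPolynomial (Fin n) ℂ} {k : ℤ}
    (hp : p ≠ 0) (hq : q ≠ 0) (h : ∀ s ∈ (p * q).support, pr (ex s) w = k) :
    ∃ l, (∀ s ∈ p.support, pr (ex s) w = l) ∧ ∀ s ∈ q.support, pr (ex s) w = k - l := by
  obtain ⟨μ, hμ, hμm⟩ := exists_min hw
  obtain ⟨ν, hν, hνm⟩ := exists_min (prim_neg hw)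
  have hpq : p * q ≠ 0 := mul_ne_zero hp hq
  have h1 : μ (p * q) = k := by
    obtain ⟨⟨s, hs, h1⟩, -⟩ := hμ _ hpq
    rw [h1, h s hs]
  have h2 : ν (p * q) = -k := by
    obtain ⟨⟨s, hs, h1⟩, -⟩ := hν _ hpq
    rw [h1, pr_neg_right, h s hs]
  rw [hμm p q hp hq] at h1
  rw [hνm p q hp hq] at h2
  obtain ⟨⟨s1, hs1, e1⟩, m1⟩ := hμ p hp
  obtain ⟨⟨s2, hs2, e2⟩, m2⟩ := hμ q hq
  obtain ⟨⟨s3, hs3, e3⟩, m3⟩ := hν p hp
  obtain ⟨⟨s4, hs4, e4⟩, m4⟩ := hν q hq
  have a1 := m3 s1 hs1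
  have a2 := m4 s2 hs2
  rw [pr_neg_right] at a1 a2
  refine ⟨μ p, fun s hs => ?_, fun s hs => ?_⟩
  · have b1 := m1 s hs
    have b2 := m3 s hs
    rw [pr_neg_right] at b2
    omega
  · have b1 := m2 s hs
    have b2 := m4 s hs
    rw [pr_neg_right] at b2
    omega

theorem part_mul {w : Fin n → ℤ} {p q : MvPolynomial (Fin n) ℂ} {k l : ℤ}
    (hp : ∀ s ∈ p.support, k ≤ pr (ex s) w) (hq : ∀ s ∈ q.support, l ≤ pr (ex s) w) :
    part w (k + l) (p * q) = part w k p * part w l q := by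
  classical
  ext s
  rw [Pool.Agent.TH165.ACC.coeff_part, coeff_mul, coeff_mul]
  split_ifs with h
  · refine Finset.sum_congr rfl fun x hx => ?_
    rw [Pool.Agent.TH165.ACC.coeff_part, Pool.Agent.TH165.ACC.coeff_part]
    by_cases h1 : p.coeff x.1 = 0
    · simp [h1]
    by_cases h2 : q.coeff x.2 = 0
    · simp [h2]
    have h3 := hp x.1 (mem_support_iff.2 h1)
    have h4 := hq x.2 (mem_support_iff.2 h2)
    rw [← Finset.HasAntidiagonal.mem_antidiagonal.1 hx, ex_add, pr_add] at h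
    rw [if_pos (by omega), if_pos (by omega)]
  · symm
    refine Finset.sum_eq_zero fun x hx => ?_
    rw [Pool.Agent.TH165.ACC.coeff_part, Pool.Agent.TH165.ACC.coeff_part]
    rw [← Finset.HasAntidiagonal.mem_antidiagonal.1 hx, ex_add, pr_add] at h
    by_cases h3 : pr (ex x.1) w = k
    · rw [if_pos h3, if_neg (by omega), mul_zero]
    · rw [if_neg h3, zero_mul]

namespace Hom

/-- a polynomial all of whose prime factors divide coordinates is a monomial -/
theorem monomial_of {f : MvPolynomial (Fin n) ℂ} (hf : f ≠ 0)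
    (h : ∀ g, Prime g → g ∣ f → ∃ i, g ∣ X i) : ∃ s c, f = monomial s c := by
  classical
  induction f using UniqueFactorizationMonoid.induction_on_prime with
  | h₁ => exact absurd rfl hf
  | h₂ x hx =>
    rw [MvPolynomial.isUnit_iff_eq_C_of_isReduced] at hx
    obtain ⟨c, _, rfl⟩ := hx
    exact ⟨0, c, rfl⟩
  | h₃ a p ha hp ih =>
    have ha' : a ≠ 0 := ha
    obtain ⟨s, c, rfl⟩ := ih ha' fun g hg hga => h g hg (Dvd.dvd.mul_left hga _)
    obtain ⟨i, hi⟩ := h p hp (dvd_mul_right _ _)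
    have hXi : Irreducible (X i : MvPolynomial (Fin n) ℂ) := (X_prime (i := i)).irreducible
    obtain ⟨u, hu⟩ := ((hp.irreducible.dvd_irreducible_iff_associated hXi).1 hi).symm
    obtain ⟨c', _, hc'⟩ := MvPolynomial.isUnit_iff_eq_C_of_isReduced.1 u.isUnit
    refine ⟨Finsupp.single i 1 + s, c' * c, ?_⟩
    rw [← hu, hc', X, mul_comm (monomial _ _) (C c'), mul_assoc, monomial_mul, one_mul,
      C_mul_monomial]

theorem exists_torus {g : MvPolynomial (Fin n) ℂ} (hg : Prime g) (hX : ∀ i, ¬ g ∣ X i) :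
    ∃ ξ : Fin n → ℂ, (∀ i, ξ i ≠ 0) ∧ eval ξ g = 0 := by
  set 𝔭 : Ideal (MvPolynomial (Fin n) ℂ) := Ideal.span {g} with hdef
  have h𝔭 : 𝔭.IsPrime := (Ideal.span_singleton_prime hg.ne_zero).2 hg
  by_contra hc
  push Not at hc
  have h3 : (∏ i, (X i : MvPolynomial (Fin n) ℂ)) ∈ vanishingIdeal ℂ (zeroLocus ℂ 𝔭) := by
    rw [mem_vanishingIdeal_iff]
    intro ξ hξ
    have h0 : eval ξ g = 0 := by
      have := mem_zeroLocus_iff.1 hξ g (Ideal.mem_span_singleton_self g)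
      rwa [← coe_aeval_eq_eval]
    have h1 : ∃ i, ξ i = 0 := by
      by_contra h2
      push Not at h2
      exact hc ξ h2 h0
    obtain ⟨i, hi⟩ := h1
    rw [map_prod]
    exact Finset.prod_eq_zero (Finset.mem_univ i) (by rw [aeval_X, hi])
  rw [vanishingIdeal_zeroLocus_eq_radical, h𝔭.radical, h𝔭.prod_mem_iff] at h3
  obtain ⟨i, -, hi⟩ := h3
  exact hX i (Ideal.mem_span_singleton.1 hi)

end Hom

/-- if the least weight is attained twice, the initial form has a prime factor which divides no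
coordinate, and its square does not divide the initial form -/
theorem exists_factor {F : MvPolynomial (Fin n) ℂ} (hF : F ≠ 0) {w : Fin n → ℤ}
    (ht : Trop (expo F) w)
    (hnd : ∀ ξ : Fin n → ℂ, (∀ i, ξ i ≠ 0) → eval ξ (lead w F) = 0 →
      ∃ i, eval ξ (pderiv i (lead w F)) ≠ 0) :
    ∃ g g' : MvPolynomial (Fin n) ℂ, Prime g ∧ lead w F = g * g' ∧ ¬ g ∣ g' ∧
      ∀ i, ¬ g ∣ X i := by
  classical
  obtain ⟨m, hm, m', hm', hne, h1, h2⟩ := ht
  obtain ⟨s, hs, rfl⟩ := mem_expo.1 hm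
  obtain ⟨s', hs', rfl⟩ := mem_expo.1 hm'
  obtain ⟨⟨s0, hs0, e0⟩, h0⟩ := phi_expo hF w
  have hlead : lead w F = part w (phi (expo F) w) F :=
    Pool.Agent.TH165.ACC.lead_eq ⟨s0, hs0, e0⟩ h0
  have hc : (lead w F).coeff s ≠ 0 := by
    rw [hlead, Pool.Agent.TH165.ACC.coeff_part, if_pos h1]
    exact mem_support_iff.1 hs
  have hc' : (lead w F).coeff s' ≠ 0 := by
    rw [hlead, Pool.Agent.TH165.ACC.coeff_part, if_pos h2]
    exact mem_support_iff.1 hs'
  have hl0 : lead w F ≠ 0 := by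
    intro h
    rw [h] at hc
    exact hc (coeff_zero _)
  have hex : ∃ g, Prime g ∧ g ∣ lead w F ∧ ∀ i, ¬ g ∣ X i := by
    by_contra hcon
    push Not at hcon
    obtain ⟨t, c, ht⟩ := monomial_of hl0 hcon
    rw [ht, coeff_monomial] at hc hc'
    have e1 : t = s := by
      by_contra h
      exact hc (if_neg h)
    have e2 : t = s' := by
      by_contra h
      exact hc' (if_neg h)
    exact hne (by rw [← e1, e2])
  obtain ⟨g, hg, ⟨g', hgg'⟩, hgX⟩ := hex
  refine ⟨g, g', hg, hgg', ?_, hgX⟩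
  rintro ⟨g'', hg''⟩
  obtain ⟨ξ, hξ, hξg⟩ := exists_torus hg hgX
  obtain ⟨i, hi⟩ := hnd ξ hξ (by rw [hgg', map_mul, hξg, zero_mul])
  apply hi
  rw [hgg', hg'', Derivation.leibniz, Derivation.leibniz]
  simp only [smul_eq_mul, map_add, map_mul, hξg, zero_mul, mul_zero, add_zero]

end Pool.Agent.Helper43K9.NH
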