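import Pool.Agent.Helper43K9.NH.Dvr
import Pool.Agent.Helper43K9.NH.Hom

/-!
# [EXI] Prime divisors with given tropical weights
-/

set_option autoImplicit false
set_option linter.unusedSectionVars false
set_option linter.unusedVariables false

namespace Pool.Agent.Helper43K9.NH

open Pool.Agent.H436R3.Fol Pool.Agent.H436R3.KT Pool.Agent.W497.Mld MvPolynomial
open Pool.Agent.TH165.ACC (pr ex Prim Cn Hs lead part mldsR pr_add pr_zero pr_neg pr_sub pr_smul
  pr_smul_right ex_add ex_inj exists_nat_ex)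

variable {n d : ℕ} {L : Type} [Field L] [Algebra ℂ L]

namespace Exi

open Hom

/-- the element `a` is the quotient of `q (y)` by the monomial `y ^ t`, where all monomials of `q`
have weight at least the one of `t` -/
def Rep (y : Fin n → L) (w : Fin n → ℤ) (a : L) (q : MvPolynomial (Fin n) ℂ)
    (t : Fin n →₀ ℕ) : Prop :=
  a * ch y (ex t) = aeval y q ∧ ∀ s ∈ q.support, pr (ex t) w ≤ pr (ex s) w

/-- the part of the weight of `t` -/
noncomputable def rp (w : Fin n → ℤ) (q : MvPolynomial (Fin n) ℂ) (t : Fin n →₀ ℕ) :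
    MvPolynomial (Fin n) ℂ := part w (pr (ex t) w) q

theorem part_add (w : Fin n → ℤ) (k : ℤ) (p q : MvPolynomial (Fin n) ℂ) :
    part w k (p + q) = part w k p + part w k q := by
  ext s
  rw [Pool.Agent.TH165.ACC.coeff_part, coeff_add, coeff_add, Pool.Agent.TH165.ACC.coeff_part,
    Pool.Agent.TH165.ACC.coeff_part]
  split_ifs <;> simp

theorem part_sub (w : Fin n → ℤ) (k : ℤ) (p q : MvPolynomial (Fin n) ℂ) :
    part w k (p - q) = part w k p - part w k q := by
  ext s
  rw [Pool.Agent.TH165.ACC.coeff_part, coeff_sub, coeff_sub, Pool.Agent.TH165.ACC.coeff_part,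
    Pool.Agent.TH165.ACC.coeff_part]
  split_ifs <;> simp

theorem part_zero (w : Fin n → ℤ) (k : ℤ) : part w k (0 : MvPolynomial (Fin n) ℂ) = 0 := by
  ext s
  rw [Pool.Agent.TH165.ACC.coeff_part, coeff_zero, ite_self]

theorem supp_mon {w : Fin n → ℤ} (t : Fin n →₀ ℕ) :
    ∀ s ∈ (monomial t (1 : ℂ)).support, pr (ex t) w ≤ pr (ex s) w := by
  classical
  intro s hs
  rw [support_monomial, if_neg one_ne_zero, Finset.mem_singleton] at hs
  rw [hs]

theorem rp_mon (w : Fin n → ℤ) (t : Fin n →₀ ℕ) : rp w (monomial t (1 : ℂ)) t = monomial t 1 := by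
  classical
  ext s
  rw [rp, Pool.Agent.TH165.ACC.coeff_part, coeff_monomial]
  by_cases h : t = s
  · subst h
    simp
  · rw [if_neg h, ite_self]

/-- a homogeneous polynomial is its part -/
theorem part_eq_self {w : Fin n → ℤ} {k : ℤ} {p : MvPolynomial (Fin n) ℂ}
    (h : ∀ s ∈ p.support, pr (ex s) w = k) : part w k p = p := by
  ext s
  rw [Pool.Agent.TH165.ACC.coeff_part]
  by_cases h0 : p.coeff s = 0
  · rw [h0, ite_self]
  · rw [if_pos (h s (mem_support_iff.2 h0))]

theorem mem_part {w : Fin n → ℤ} {k : ℤ} {p : MvPolynomial (Fin n) ℂ} {s : Fin n →₀ ℕ}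
    (h : s ∈ (part w k p).support) : pr (ex s) w = k ∧ s ∈ p.support := by
  rw [mem_support_iff, Pool.Agent.TH165.ACC.coeff_part] at h
  by_cases h1 : pr (ex s) w = k
  · rw [if_pos h1] at h
    exact ⟨h1, mem_support_iff.2 h⟩
  · rw [if_neg h1] at h
    exact absurd rfl h

theorem mem_sub_part {w : Fin n → ℤ} {k : ℤ} {p : MvPolynomial (Fin n) ℂ}
    (hk : ∀ s ∈ p.support, k ≤ pr (ex s) w) {s : Fin n →₀ ℕ}
    (h : s ∈ (p - part w k p).support) : k + 1 ≤ pr (ex s) w := by
  rw [mem_support_iff, coeff_sub, Pool.Agent.TH165.ACC.coeff_part] at h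
  by_cases h1 : pr (ex s) w = k
  · rw [if_pos h1, sub_self] at h
    exact absurd rfl h
  · rw [if_neg h1, sub_zero] at h
    have := hk s (mem_support_iff.2 h)
    omega

theorem mem_mul {w : Fin n → ℤ} {k l : ℤ} {p q : MvPolynomial (Fin n) ℂ}
    (hp : ∀ s ∈ p.support, k ≤ pr (ex s) w) (hq : ∀ s ∈ q.support, l ≤ pr (ex s) w)
    {s : Fin n →₀ ℕ} (h : s ∈ (p * q).support) : k + l ≤ pr (ex s) w := by
  classical
  obtain ⟨a, ha, b, hb, rfl⟩ := Finset.mem_add.1 (support_mul p q h)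
  rw [ex_add, pr_add]
  have := hp a ha
  have := hq b hb
  omega

theorem mem_add {w : Fin n → ℤ} {k : ℤ} {p q : MvPolynomial (Fin n) ℂ}
    (hp : ∀ s ∈ p.support, k ≤ pr (ex s) w) (hq : ∀ s ∈ q.support, k ≤ pr (ex s) w)
    {s : Fin n →₀ ℕ} (h : s ∈ (p + q).support) : k ≤ pr (ex s) w := by
  classical
  rcases Finset.mem_union.1 (support_add h) with h | h
  · exact hp s h
  · exact hq s h

theorem mem_neg {w : Fin n → ℤ} {k : ℤ} {p : MvPolynomial (Fin n) ℂ}
    (hp : ∀ s ∈ p.support, k ≤ pr (ex s) w)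
    {s : Fin n →₀ ℕ} (h : s ∈ (-p).support) : k ≤ pr (ex s) w := by
  rw [support_neg] at h
  exact hp s h

variable {y : Fin n → L} {w : Fin n → ℤ}

theorem aeval_mon1 (t : Fin n →₀ ℕ) : aeval y (monomial t (1 : ℂ)) = ch y (ex t) := by
  rw [aeval_mon, map_one, one_mul]

theorem Rep.add (hy : ∀ i, y i ≠ 0) {a a' : L} {q q' : MvPolynomial (Fin n) ℂ}
    {t t' : Fin n →₀ ℕ} (h : Rep y w a q t) (h' : Rep y w a' q' t') :
    Rep y w (a + a') (q * monomial t' 1 + q' * monomial t 1) (t + t') ∧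
      rp w (q * monomial t' 1 + q' * monomial t 1) (t + t') =
        rp w q t * monomial t' 1 + rp w q' t' * monomial t 1 := by
  refine ⟨⟨?_, ?_⟩, ?_⟩
  · rw [map_add, map_mul, map_mul, aeval_mon1, aeval_mon1, ← h.1, ← h'.1, ex_add, ch_add hy]
    ring
  · intro s hs
    rw [ex_add, pr_add]
    refine mem_add (fun s hs => mem_mul h.2 (supp_mon t') hs) (fun s hs => ?_) hs
    rw [add_comm]
    exact mem_mul h'.2 (supp_mon t) hs
  · rw [rp, part_add, ex_add, pr_add, part_mul h.2 (supp_mon t')]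
    rw [add_comm (pr (ex t) w), part_mul h'.2 (supp_mon t)]
    have e1 := rp_mon w t'
    have e2 := rp_mon w t
    rw [rp] at e1 e2
    rw [e1, e2, rp, rp]

theorem Rep.mul (hy : ∀ i, y i ≠ 0) {a a' : L} {q q' : MvPolynomial (Fin n) ℂ}
    {t t' : Fin n →₀ ℕ} (h : Rep y w a q t) (h' : Rep y w a' q' t') :
    Rep y w (a * a') (q * q') (t + t') ∧ rp w (q * q') (t + t') = rp w q t * rp w q' t' := by
  refine ⟨⟨?_, ?_⟩, ?_⟩
  · rw [map_mul, ← h.1, ← h'.1, ex_add, ch_add hy]
    ring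
  · intro s hs
    rw [ex_add, pr_add]
    exact mem_mul h.2 h'.2 hs
  · rw [rp, ex_add, pr_add, part_mul h.2 h'.2, rp, rp]

theorem rep_const (c : ℂ) : Rep y w (algebraMap ℂ L c) (C c) 0 := by
  classical
  refine ⟨?_, ?_⟩
  · have : ex (0 : Fin n →₀ ℕ) = 0 := by funext i; simp [Pool.Agent.TH165.ACC.ex]
    rw [this, ch_zero, mul_one, aeval_C]
  · intro s hs
    have : s = 0 := by
      rw [C_apply, mem_support_iff, coeff_monomial] at hs
      by_contra h
      exact hs (if_neg (Ne.symm h))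
    rw [this]

theorem rep_ch (hy : ∀ i, y i ≠ 0) {m : Fin n → ℤ} (hm : 0 ≤ pr m w) {s t : Fin n →₀ ℕ}
    (h : m = ex s - ex t) : Rep y w (ch y m) (monomial s 1) t := by
  refine ⟨?_, ?_⟩
  · rw [aeval_mon1, ← ch_add hy, h, sub_add_cancel]
  · intro r hr
    have h1 := supp_mon (w := w) s r hr
    rw [h, pr_sub] at hm
    omega

theorem exists_rep (hy : ∀ i, y i ≠ 0) {a : L} (ha : a ∈ AA y (Hs w)) :
    ∃ q t, Rep y w a q t := by
  induction ha using Algebra.adjoin_induction with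
  | mem x hx =>
    obtain ⟨m, hm, rfl⟩ := hx
    obtain ⟨s, t, hst⟩ := exists_nat_ex m
    exact ⟨_, _, rep_ch hy hm hst⟩
  | algebraMap r => exact ⟨_, _, rep_const r⟩
  | add x z _ _ hx hz =>
    obtain ⟨q, t, h⟩ := hx
    obtain ⟨q', t', h'⟩ := hz
    exact ⟨_, _, (h.add hy h').1⟩
  | mul x z _ _ hx hz =>
    obtain ⟨q, t, h⟩ := hx
    obtain ⟨q', t', h'⟩ := hz
    exact ⟨_, _, (h.mul hy h').1⟩

section prime

variable (hy : ∀ i, y i ≠ 0) {F : MvPolynomial (Fin n) ℂ} (hF : F ≠ 0)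
    (hker : ∀ p : MvPolynomial (Fin n) ℂ, aeval y p = 0 ↔ F ∣ p)
    (hw : Prim w) {g g' : MvPolynomial (Fin n) ℂ} (hg : Prime g)
    (hgg : lead w F = g * g') (hgX : ∀ i, ¬ g ∣ X i)

include hg hgX in
theorem not_dvd_mon (t : Fin n →₀ ℕ) : ¬ g ∣ monomial t (1 : ℂ) := by
  intro h
  rw [monomial_eq, C_1, one_mul, Finsupp.prod] at h
  obtain ⟨i, _, hi⟩ := (Prime.dvd_finsetProd_iff hg _).1 h
  exact hgX i (hg.dvd_of_dvd_pow hi)

include hF hw hgg in
/-- the initial parts of the multiples of `F` are multiples of `g` -/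
theorem dvd_part {h : MvPolynomial (Fin n) ℂ} {k : ℤ}
    (hk : ∀ s ∈ (F * h).support, k ≤ pr (ex s) w) : g ∣ part w k (F * h) := by
  by_cases h0 : h = 0
  · rw [h0, mul_zero, part_zero]
    exact dvd_zero _
  obtain ⟨μ, hμ, hμm⟩ := exists_min hw
  have h1 := hμm F h hF h0
  obtain ⟨⟨s, hs, e⟩, -⟩ := hμ _ (mul_ne_zero hF h0)
  have h2 := hk s hs
  have h3 : ∀ s ∈ h.support, k - μ F ≤ pr (ex s) w := by
    intro s hs
    have := (hμ h h0).2 s hs
    omega
  have h4 := part_mul (hμ F hF).2 h3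
  rw [add_sub_cancel] at h4
  rw [h4, ← Pool.Agent.TH165.ACC.lead_eq (hμ F hF).1 (hμ F hF).2, hgg, mul_assoc]
  exact dvd_mul_right _ _

include hy hF hker hw hg hgg hgX in
theorem dvd_rp {a : L} {q q' : MvPolynomial (Fin n) ℂ} {t t' : Fin n →₀ ℕ}
    (h : Rep y w a q t) (h' : Rep y w a q' t') (hd : g ∣ rp w q t) : g ∣ rp w q' t' := by
  have h1 : F ∣ q * monomial t' 1 + -(q' * monomial t 1) := by
    rw [← hker, map_add, map_neg, map_mul, map_mul, aeval_mon1, aeval_mon1, ← h.1, ← h'.1]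
    ring
  obtain ⟨u, hu⟩ := h1
  have h2 : ∀ s ∈ (q * monomial t' 1 + -(q' * monomial t 1)).support,
      pr (ex t) w + pr (ex t') w ≤ pr (ex s) w := by
    intro s hs
    refine mem_add (fun s hs => mem_mul h.2 (supp_mon t') hs) (fun s hs => ?_) hs
    refine mem_neg (fun s hs => ?_) hs
    rw [add_comm]
    exact mem_mul h'.2 (supp_mon t) hs
  rw [hu] at h2
  have h3 := dvd_part hF hw hgg h2
  rw [← hu, ← sub_eq_add_neg, part_sub, part_mul h.2 (supp_mon t'),
    add_comm (pr (ex t) w), part_mul h'.2 (supp_mon t)] at h3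
  have e1 := rp_mon w t'
  have e2 := rp_mon w t
  rw [rp] at e1 e2 hd
  rw [e1, e2] at h3
  have h4 : g ∣ part w (pr (ex t') w) q' * monomial t 1 :=
    (dvd_sub_right (Dvd.dvd.mul_right hd _)).1 h3
  exact (hg.dvd_or_dvd h4).resolve_right (not_dvd_mon hg hgX t)

/-- the prime ideal -/
noncomputable def PI (hy : ∀ i, y i ≠ 0) (w : Fin n → ℤ) (g : MvPolynomial (Fin n) ℂ) :
    Ideal (AA y (Hs w)) where
  carrier := {a | ∃ q t, Rep y w (a : L) q t ∧ g ∣ rp w q t}
  zero_mem' := by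
    refine ⟨C 0, 0, ?_, ?_⟩
    · have := rep_const (y := y) (w := w) 0
      rwa [map_zero] at this
    · rw [C_0, rp, part_zero]
      exact dvd_zero _
  add_mem' := by
    rintro a b ⟨q, t, h, hd⟩ ⟨q', t', h', hd'⟩
    refine ⟨_, _, (h.add hy h').1, ?_⟩
    rw [(h.add hy h').2]
    exact dvd_add (Dvd.dvd.mul_right hd _) (Dvd.dvd.mul_right hd' _)
  smul_mem' := by
    rintro c a ⟨q, t, h, hd⟩
    obtain ⟨q', t', h'⟩ := exists_rep hy c.2
    refine ⟨_, _, (h'.mul hy h).1, ?_⟩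
    rw [(h'.mul hy h).2]
    exact Dvd.dvd.mul_left hd _

include hF hker hw hg hgg hgX in
theorem mem_PI {a : AA y (Hs w)} {q : MvPolynomial (Fin n) ℂ} {t : Fin n →₀ ℕ}
    (h : Rep y w (a : L) q t) : a ∈ PI hy w g ↔ g ∣ rp w q t := by
  constructor
  · rintro ⟨q', t', h', hd⟩
    exact dvd_rp hy hF hker hw hg hgg hgX h' h hd
  · intro hd
    exact ⟨q, t, h, hd⟩

include hF hker hw hg hgg hgX in
theorem prime_PI : (PI hy w g).IsPrime where
  ne_top' := by
    rw [Ne, Ideal.eq_top_iff_one]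
    intro h
    have h1 : Rep y w ((1 : AA y (Hs w)) : L) (C 1) 0 := by
      have := rep_const (y := y) (w := w) 1
      rwa [map_one] at this
    rw [mem_PI hy hF hker hw hg hgg hgX h1] at h
    have h2 : rp w (C 1 : MvPolynomial (Fin n) ℂ) 0 = monomial 0 1 := by
      rw [← rp_mon w 0]
      rfl
    rw [h2] at h
    exact not_dvd_mon hg hgX 0 h
  mem_or_mem' := by
    intro a b hab
    obtain ⟨q, t, h⟩ := exists_rep hy a.2
    obtain ⟨q', t', h'⟩ := exists_rep hy b.2
    have h1 := h.mul hy h'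
    rw [mem_PI hy hF hker hw hg hgg hgX (a := a * b) h1.1, h1.2] at hab
    rcases hg.dvd_or_dvd hab with h2 | h2
    · exact Or.inl ((mem_PI hy hF hker hw hg hgg hgX h).2 h2)
    · exact Or.inr ((mem_PI hy hF hker hw hg hgg hgX h').2 h2)

end prime

end Exi

open Exi Hom

/-- a prime divisor with given primitive tropical weights -/
theorem exists_div {y : Fin n → L} (hy : ∀ i, y i ≠ 0) {F : MvPolynomial (Fin n) ℂ} (hF : F ≠ 0)
    (hker : ∀ p : MvPolynomial (Fin n) ℂ, aeval y p = 0 ↔ F ∣ p)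
    (hfrac : ∀ f : L, ∃ a b : MvPolynomial (Fin n) ℂ, aeval y b ≠ 0 ∧ f * aeval y b = aeval y a)
    {w : Fin n → ℤ} (hw : Prim w) {g g' : MvPolynomial (Fin n) ℂ} (hg : Prime g)
    (hgg : lead w F = g * g') (hgg' : ¬ g ∣ g') (hgX : ∀ i, ¬ g ∣ X i) :
    ∃ v : DVal L, IsLocalRing' (AA y (Hs w)) v ∧ wt y v = w := by
  classical
  obtain ⟨m1, hm1⟩ := id hw
  have hm1A : ch y m1 ∈ AA y (Hs w) := ch_mem_AA (by change 0 ≤ pr _ _; rw [hm1]; norm_num)
  have hmulA : ∀ (p : MvPolynomial (Fin n) ℂ) (m : Fin n → ℤ),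
      (∀ s ∈ p.support, 0 ≤ pr (ex s) w + pr m w) → aeval y p * ch y m ∈ AA y (Hs w) := by
    intro p m h
    refine aeval_mul_mem_AA hy fun s hs => ?_
    change 0 ≤ pr _ _
    rw [pr_add]
    exact h s hs
  have hfracA : ∀ f : L, ∃ a b : L, a ∈ AA y (Hs w) ∧ b ∈ AA y (Hs w) ∧ b ≠ 0 ∧ f * b = a := by
    intro f
    obtain ⟨a, b, hb, hab⟩ := hfrac f
    obtain ⟨k, hk⟩ : ∃ k : ℤ, ∀ s ∈ a.support ∪ b.support, -pr (ex s) w ≤ k := by
      obtain ⟨k, hk⟩ := ((a.support ∪ b.support).image fun s => -pr (ex s) w).exists_le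
      exact ⟨k, fun s hs => hk _ (Finset.mem_image_of_mem _ hs)⟩
    refine ⟨aeval y a * ch y (k • m1), aeval y b * ch y (k • m1), ?_, ?_, ?_, ?_⟩
    · refine hmulA _ _ fun s hs => ?_
      have := hk s (Finset.mem_union_left _ hs)
      rw [pr_smul, hm1]
      omega
    · refine hmulA _ _ fun s hs => ?_
      have := hk s (Finset.mem_union_right _ hs)
      rw [pr_smul, hm1]
      omega
    · exact mul_ne_zero hb (ch_ne hy _)
    · rw [← mul_assoc, hab]
  have hP := prime_PI hy hF hker hw hg hgg hgX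
  set P := PI hy w g with hPdef
  let π : AA y (Hs w) := ⟨ch y m1, hm1A⟩
  have hπ0 : π ≠ 0 := fun h => ch_ne hy m1 (congrArg Subtype.val h)
  have hπP : π ∈ P := by
    obtain ⟨s, t, hst⟩ := exists_nat_ex m1
    have h1 : Rep y w ((π : AA y (Hs w)) : L) (monomial s 1) t :=
      rep_ch hy (by rw [hm1]; norm_num) hst
    rw [hPdef, mem_PI hy hF hker hw hg hgg hgX h1]
    have h2 : rp w (monomial s (1 : ℂ)) t = 0 := by
      ext r
      rw [rp, Pool.Agent.TH165.ACC.coeff_part, coeff_monomial, coeff_zero]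
      by_cases h : s = r
      · subst h
        rw [if_neg]
        intro h3
        rw [hst, pr_sub] at hm1
        omega
      · rw [if_neg h, ite_self]
    rw [h2]
    exact dvd_zero _
  -- weights
  have hl0 : lead w F ≠ 0 := by
    obtain ⟨μ, hμ, -⟩ := exists_min hw
    obtain ⟨⟨s, hs, e⟩, h2⟩ := hμ F hF
    rw [Pool.Agent.TH165.ACC.lead_eq ⟨s, hs, e⟩ h2]
    intro h
    have := congrArg (coeff s) h
    rw [Pool.Agent.TH165.ACC.coeff_part, if_pos e.symm, coeff_zero] at this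
    exact (mem_support_iff.1 hs) this
  obtain ⟨⟨s0, hs0, e0⟩, h0⟩ := phi_expo hF w
  set φ := phi (expo F) w with hφ
  have hlead : lead w F = part w φ F := Pool.Agent.TH165.ACC.lead_eq ⟨s0, hs0, e0⟩ h0
  have hg'0 : g' ≠ 0 := by
    intro h
    rw [h, mul_zero] at hgg
    exact hl0 hgg
  obtain ⟨γ, hγ, hγ'⟩ := homog_of_mul hw hg.ne_zero hg'0 (k := φ) (fun s hs => by
    rw [← hgg, hlead] at hs
    exact (mem_part hs).1)
  obtain ⟨x0, hx0⟩ : g'.support.Nonempty := by
    rwa [Finset.nonempty_iff_ne_empty, Ne, support_eq_empty]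
  have hx0w : pr (ex x0) w = φ - γ := hγ' x0 hx0
  -- the denominator
  have hsA : aeval y g' * ch y (-ex x0) ∈ AA y (Hs w) := by
    refine hmulA _ _ fun s hs => ?_
    rw [pr_neg, hx0w, hγ' s hs]
    omega
  let σ : AA y (Hs w) := ⟨aeval y g' * ch y (-ex x0), hsA⟩
  have hσP : σ ∉ P := by
    have h1 : Rep y w ((σ : AA y (Hs w)) : L) g' x0 := by
      refine ⟨?_, fun s hs => ?_⟩
      · change aeval y g' * ch y (-ex x0) * ch y (ex x0) = _
        rw [mul_assoc, ← ch_add hy, neg_add_cancel, ch_zero, mul_one]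
      · rw [hx0w, hγ' s hs]
    rw [hPdef, mem_PI hy hF hker hw hg hgg hgX h1, rp, hx0w, part_eq_self hγ']
    exact hgg'
  have hloc : ∀ a ∈ P, ∃ s : AA y (Hs w), s ∉ P ∧ ∃ b : AA y (Hs w), s * a = π * b := by
    intro a ha
    obtain ⟨q, t, hr, h, hh⟩ := ha
    set μ := pr (ex t) w with hμ
    rw [rp] at hh
    -- weights of `h`
    have hhw : ∀ s ∈ h.support, pr (ex s) w = μ - γ := by
      by_cases hh0 : h = 0
      · intro s hs
        rw [hh0, support_zero] at hs
        exact absurd hs (Finset.notMem_empty _)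
      · obtain ⟨l, hl1, hl2⟩ := homog_of_mul hw hg.ne_zero hh0 (k := μ) (fun s hs => by
          rw [← hh] at hs
          exact (mem_part hs).1)
        obtain ⟨r, hr⟩ : g.support.Nonempty := by
          rw [Finset.nonempty_iff_ne_empty, Ne, support_eq_empty]
          exact hg.ne_zero
        have := hl1 r hr
        have := hγ r hr
        intro s hs
        have := hl2 s hs
        omega
    let z : MvPolynomial (Fin n) ℂ := -((F - lead w F) * h) + g' * (q - part w μ q)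
    have hz : aeval y g' * ((a : L) * ch y (ex t)) = aeval y z := by
      have hF0 : aeval y F = 0 := (hker F).2 dvd_rfl
      have e1 : aeval y (lead w F) * aeval y h = aeval y g' * aeval y (part w μ q) := by
        rw [hgg, hh, map_mul, map_mul]
        ring
      rw [hr.1]
      simp only [z, map_add, map_neg, map_mul, map_sub, hF0]
      linear_combination -e1
    have hzw : ∀ s ∈ z.support, μ + (φ - γ) + 1 ≤ pr (ex s) w := by
      intro s hs
      refine mem_add (fun s hs => mem_neg (fun s hs => ?_) hs) (fun s hs => ?_) hs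
      · have h1 : ∀ s ∈ (F - lead w F).support, φ + 1 ≤ pr (ex s) w := by
          intro s hs
          rw [hlead] at hs
          exact mem_sub_part h0 hs
        have := mem_mul h1 (fun s hs => (hhw s hs).ge) hs
        omega
      · have h1 : ∀ s ∈ (q - part w μ q).support, μ + 1 ≤ pr (ex s) w := fun s hs =>
          mem_sub_part hr.2 hs
        have := mem_mul (fun s hs => (hγ' s hs).ge) h1 hs
        omega
    have hbA : aeval y z * ch y (-ex t - ex x0 - m1) ∈ AA y (Hs w) := by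
      refine hmulA _ _ fun s hs => ?_
      have := hzw s hs
      rw [pr_sub, pr_sub, pr_neg, hx0w, hm1]
      omega
    refine ⟨σ, hσP, ⟨_, hbA⟩, ?_⟩
    apply Subtype.ext
    change aeval y g' * ch y (-ex x0) * (a : L) =
      ch y m1 * (aeval y z * ch y (-ex t - ex x0 - m1))
    rw [← hz, ch_sub hy, sub_eq_add_neg (-ex t), ch_add hy, ch_neg (ex t)]
    have h1 := ch_ne hy (ex t)
    have h2 := ch_ne hy m1
    field_simp
  obtain ⟨v, hv, -, hv1⟩ := exists_dval_unif (fg_Hs' hy hw) hfracA P hP π hπ0 hπP hloc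
  refine ⟨v, hv, ?_⟩
  funext i
  change v.ord (y i) = w i
  set e : Fin n → ℤ := Pi.single i 1 with he
  have hei : ch y e = y i := by
    rw [ch, Finset.prod_eq_single i]
    · rw [he, Pi.single_eq_same, zpow_one]
    · intro j _ hj
      rw [he, Pi.single_eq_of_ne hj, zpow_zero]
    · intro h; exact absurd (Finset.mem_univ i) h
  have hpe : pr e w = w i := by
    rw [pr, Finset.sum_eq_single i]
    · rw [he, Pi.single_eq_same, one_mul]
    · intro j _ hj
      rw [he, Pi.single_eq_of_ne hj, zero_mul]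
    · intro h; exact absurd (Finset.mem_univ i) h
  have hm0 : pr (e - w i • m1) w = 0 := by
    rw [pr_sub, pr_smul, hm1, hpe, mul_one, sub_self]
  have h1 : v.Reg (ch y (e - w i • m1)) := hv.1 _ (ch_mem_AA (by change 0 ≤ pr _ _; rw [hm0]))
  have h2 : v.Reg (ch y (-(e - w i • m1))) :=
    hv.1 _ (ch_mem_AA (by change 0 ≤ pr _ _; rw [pr_neg, hm0, neg_zero]))
  have h3 := v.ord_nonneg (ch_ne hy _) h1
  have h4 := v.ord_nonneg (ch_ne hy _) h2
  have h5 : v.ord (ch y (-(e - w i • m1))) = -v.ord (ch y (e - w i • m1)) := by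
    rw [ch_neg, v.ord_inv (ch_ne hy _)]
  have h6 : v.ord (ch y (e - w i • m1)) = v.ord (y i) - w i := by
    rw [ch_sub hy, hei, ch_smul hy, v.map_mul _ _ (hy i) (inv_ne_zero (zpow_ne_zero _ (ch_ne hy _))),
      v.ord_inv (zpow_ne_zero _ (ch_ne hy _)), v.ord_zpow (ch_ne hy _)]
    have : v.ord (ch y m1) = 1 := hv1
    rw [this]
    ring
  omega

end Pool.Agent.Helper43K9.NH
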