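import Pool.Agent.Helper43K9.NH.Base

set_option autoImplicit false
set_option linter.unusedSectionVars false
set_option linter.unusedVariables false

namespace Pool.Agent.Helper43K9.NH

open Pool.Agent.H436R3.Fol Pool.Agent.H436R3.KT Pool.Agent.W497.Mld MvPolynomial
open Pool.Agent.TH165.ACC (pr ex Prim Cn Hs lead part mldsR pr_add pr_zero pr_neg pr_sub pr_smul
  pr_smul_right ex_add ex_inj exists_nat_ex Cn_add Cn_zero)

variable {n d : ℕ} {L : Type} [Field L] [Algebra ℂ L]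

/-- no monomial of the equation is minimal along all rays, as `P` lies on `X` -/
theorem not_all_min (g : HypGerm d L) :
    ∀ m ∈ expo g.F, ∃ i, phi (expo g.F) (g.E i) < pr m (g.E i) := by
  classical
  intro m hm
  by_contra hcon
  push Not at hcon
  obtain ⟨s0, hs0, rfl⟩ := mem_expo.1 hm
  have hC : ∀ s ∈ g.F.support, ex s + -ex s0 ∈ Cn g.E := by
    intro s hs i
    rw [← sub_eq_add_neg, pr_sub]
    have h1 := hcon i
    have h2 := (phi_expo g.Fne (g.E i)).2 s hs
    omega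
  have hmem : ∀ s ∈ g.F.support, ch g.y (ex s + -ex s0) ∈ g.X.R := by
    intro s hs
    rw [g.hR]
    exact ch_mem_AA (hC s hs)
  let f : (Fin (d + 1) →₀ ℕ) → g.X.R := fun s =>
    if hs : s ∈ g.F.support then ⟨ch g.y (ex s + -ex s0), hmem s hs⟩ else 0
  have h0 : (∑ s ∈ g.F.support, algebraMap ℂ g.X.R (g.F.coeff s) * f s) = 0 := by
    apply Subtype.ext
    have h1 : aeval g.y g.F * ch g.y (-ex s0) = 0 := by
      rw [(g.ker _).2 dvd_rfl, zero_mul]
    rw [aeval_eq_sum, Finset.sum_mul] at h1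
    push_cast
    rw [← h1]
    refine Finset.sum_congr rfl fun s hs => ?_
    simp only [f]
    rw [dif_pos hs, mul_assoc, ← ch_add g.yne]
  have h2 := congrArg g.P h0
  rw [map_sum, map_zero, Finset.sum_eq_single s0] at h2
  · rw [map_mul, AlgHom.commutes] at h2
    have h3 : f s0 = 1 := by
      apply Subtype.ext
      simp only [f]
      rw [dif_pos hs0]
      change ch g.y (ex s0 + -ex s0) = 1
      rw [add_neg_cancel, ch_zero]
    rw [h3, map_one, mul_one] at h2
    exact (mem_support_iff.1 hs0) h2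
  · intro s hs hne
    rw [map_mul]
    have h3 : g.P (f s) = 0 := by
      refine g.hP _ _ (hC s hs) ?_ ?_
      · intro h4
        rw [← sub_eq_add_neg, sub_eq_zero] at h4
        exact hne (ex_inj h4)
      · simp only [f]
        rw [dif_pos hs]
    rw [h3, mul_zero]
  · intro h; exact absurd hs0 h

theorem frac_AA {y : Fin n → L} (hy : ∀ i, y i ≠ 0) {C : Set (Fin n → ℤ)} {f : L}
    (hf : f ∈ AA y C) : ∃ (a : MvPolynomial (Fin n) ℂ) (t : Fin n →₀ ℕ),
      f * ch y (ex t) = aeval y a := by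
  induction hf using Algebra.adjoin_induction with
  | mem x hx =>
    obtain ⟨m, hm, rfl⟩ := hx
    obtain ⟨s, t, rfl⟩ := exists_nat_ex m
    refine ⟨monomial s 1, t, ?_⟩
    rw [← ch_ex, ← ch_add hy, sub_add_cancel]
  | algebraMap r =>
    refine ⟨MvPolynomial.C r, 0, ?_⟩
    have : ex (0 : Fin n →₀ ℕ) = 0 := by funext i; simp [Pool.Agent.TH165.ACC.ex]
    rw [this, ch_zero, mul_one, aeval_C]
  | add x z _ _ hx hz =>
    obtain ⟨a, s, h1⟩ := hx
    obtain ⟨b, t, h2⟩ := hz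
    refine ⟨a * monomial t 1 + b * monomial s 1, s + t, ?_⟩
    rw [map_add, map_mul, map_mul, ← ch_ex, ← ch_ex, ← h1, ← h2, ex_add, ch_add hy]
    ring
  | mul x z _ _ hx hz =>
    obtain ⟨a, s, h1⟩ := hx
    obtain ⟨b, t, h2⟩ := hz
    refine ⟨a * b, s + t, ?_⟩
    rw [map_mul, ← h1, ← h2, ex_add, ch_add hy]
    ring

theorem frac_poly (g : HypGerm d L) (f : L) : ∃ a b : MvPolynomial (Fin (d + 1)) ℂ,
    aeval g.y b ≠ 0 ∧ f * aeval g.y b = aeval g.y a := by
  obtain ⟨a, b, ha, hb, hb0, hab⟩ := g.X.frac f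
  rw [g.hR] at ha hb
  obtain ⟨p, s, h1⟩ := frac_AA g.yne ha
  obtain ⟨q, t, h2⟩ := frac_AA g.yne hb
  refine ⟨p * monomial t 1, q * monomial s 1, ?_, ?_⟩
  · rw [map_mul, ← h2, ← ch_ex]
    exact mul_ne_zero (mul_ne_zero hb0 (ch_ne g.yne _)) (ch_ne g.yne _)
  · rw [map_mul, map_mul, ← h1, ← h2, ← ch_ex, ← ch_ex, ← hab]
    ring

end Pool.Agent.Helper43K9.NH
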