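import Pool.Agent.Helper43K9.NH.Base

/-! Leaf STEP (helper80) of the relay of helper43, MP_df5e61_ag. -/

set_option autoImplicit false
set_option linter.unusedSectionVars false
set_option linter.unusedVariables false

namespace Pool.Agent.Helper43K9.NH

open Pool.Agent.H436R3.Fol Pool.Agent.H436R3.KT Pool.Agent.W497.Mld MvPolynomial
open Pool.Agent.TH165.ACC (pr ex Prim Cn Hs lead part mldsR pr_add pr_zero pr_neg pr_sub pr_smul
  pr_smul_right ex_add ex_inj exists_nat_ex)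

variable {n d : ℕ}

/-- a nontropical weight has a unique minimiser, and it is not minimal on some ray -/
theorem StepL.exists_unique_min {N : ℕ} {E : Fin N → Fin n → ℤ} {S : Finset (Fin n → ℤ)}
    (hS : S.Nonempty) (hP : ∀ m ∈ S, ∃ i, phi S (E i) < pr m (E i)) {w : Fin n → ℤ}
    (hw : ¬ Trop S w) : ∃ m ∈ S, pr m w = phi S w ∧ (∀ m' ∈ S, m' ≠ m → phi S w + 1 ≤ pr m' w) ∧
      ∃ i, phi S (E i) < pr m (E i) := by
  obtain ⟨⟨m, hm, h1⟩, h2⟩ := phi_spec hS w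
  refine ⟨m, hm, h1, ?_, hP m hm⟩
  intro m' hm' hne
  have h3 := h2 m' hm'
  have h4 : pr m' w ≠ phi S w := fun h5 => hw ⟨m', hm', m, hm, hne, h5, h1⟩
  omega

/-- (A) -/
theorem StepL.partA {N : ℕ} {E : Fin N → Fin n → ℤ} {S : Finset (Fin n → ℤ)}
    (hS : S.Nonempty) {ψ : Fin n → ℝ} (hψ : ∀ i, dot ψ (E i) ≤ 1 + (phi S (E i) : ℝ))
    {w m : Fin n → ℤ} (hm : m ∈ S) (h1 : pr m w = phi S w)
    (h2 : ∀ m' ∈ S, m' ≠ m → phi S w + 1 ≤ pr m' w) {i : Fin N}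
    (hi : phi S (E i) < pr m (E i)) : aa ψ S (w + E i) ≤ aa ψ S w := by
  have h3 : phi S w + phi S (E i) + 1 ≤ phi S (w + E i) := by
    obtain ⟨⟨m', hm', h4⟩, -⟩ := phi_spec hS (w + E i)
    rw [← h4, pr_add_right]
    have h5 := (phi_spec hS (E i)).2 m' hm'
    by_cases h6 : m' = m
    · subst h6; omega
    · have := h2 m' hm' h6
      omega
  have h4 := hψ i
  have h5 : ((phi S w + phi S (E i) + 1 : ℤ) : ℝ) ≤ (phi S (w + E i) : ℝ) := by exact_mod_cast h3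
  push_cast at h5
  rw [aa, aa, dot_add]
  linarith

/-- (B) -/
theorem StepL.partB {N : ℕ} {E : Fin N → Fin n → ℤ} {S : Finset (Fin n → ℤ)} (hS : S.Nonempty)
    {ψ : Fin n → ℝ} (hψ : ∀ i, dot ψ (E i) ≤ 1 + (phi S (E i) : ℝ)) {Q : Fin n → ℤ}
    (hQ : ∀ i, 0 < pr Q (E i)) {ε : ℝ} (hε : 0 < ε)
    (htrop : ∀ w, Inn E w → Trop S w → ε * (pr Q w : ℝ) ≤ aa ψ S w)
    {w m : Fin n → ℤ} (hw : Inn E w) (hm : m ∈ S) (h1 : pr m w = phi S w)
    (h2 : ∀ m' ∈ S, m' ≠ m → phi S w + 1 ≤ pr m' w) {i : Fin N}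
    (hi : phi S (E i) < pr m (E i)) : ε * (pr Q w : ℝ) ≤ aa ψ S w := by
  classical
  obtain ⟨⟨m0, hm0, h3⟩, h4⟩ := phi_spec hS (E i)
  -- the candidates
  have hM : (S.filter fun m' => pr m' (E i) < pr m (E i)).Nonempty :=
    ⟨m0, Finset.mem_filter.2 ⟨hm0, by omega⟩⟩
  obtain ⟨m', hm', hmin⟩ := Finset.exists_min_image _
    (fun m' => ((pr m' w - pr m w : ℤ) : ℝ) / ((pr m (E i) - pr m' (E i) : ℤ) : ℝ)) hM
  obtain ⟨hm'S, hm'lt⟩ := Finset.mem_filter.1 hm'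
  have hne : m' ≠ m := by
    intro h
    rw [h] at hm'lt
    exact lt_irrefl _ hm'lt
  obtain ⟨K, hK⟩ : ∃ K, K = pr m (E i) - pr m' (E i) := ⟨_, rfl⟩
  obtain ⟨k, hk⟩ : ∃ k, k = pr m' w - pr m w := ⟨_, rfl⟩
  have hKpos : 0 < K := by omega
  have hkpos : 0 < k := by have := h2 m' hm'S hne; omega
  have hpr : ∀ q, pr q (K • w + k • E i) = K * pr q w + k * pr q (E i) := by
    intro q
    rw [pr_add_right, pr_smul_right, pr_smul_right]
  have hInn : Inn E (K • w + k • E i) := by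
    intro q hq hq0
    rw [hpr]
    have h5 := hw q hq hq0
    have h6 := hq i
    nlinarith [mul_pos hKpos h5, mul_nonneg hkpos.le h6]
  have hmm' : pr m' (K • w + k • E i) = pr m (K • w + k • E i) := by
    rw [hpr, hpr]
    have e1 : pr m' w = pr m w + k := by omega
    have e2 : pr m' (E i) = pr m (E i) - K := by omega
    rw [e1, e2]
    ring
  have hphi : phi S (K • w + k • E i) = pr m (K • w + k • E i) := by
    apply phi_eq ⟨m, hm, rfl⟩
    intro q hq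
    rw [hpr, hpr]
    have h5 : 0 ≤ pr q w - pr m w := by
      have := (phi_spec hS w).2 q hq
      omega
    rcases le_or_gt (pr m (E i)) (pr q (E i)) with h6 | h6
    · nlinarith [mul_nonneg hKpos.le h5, mul_nonneg hkpos.le (sub_nonneg.2 h6)]
    · have h7 := hmin q (Finset.mem_filter.2 ⟨hq, h6⟩)
      rw [← hK, ← hk] at h7
      have h8 : (0 : ℝ) < (K : ℝ) := by exact_mod_cast hKpos
      have h9 : (0 : ℝ) < ((pr m (E i) - pr q (E i) : ℤ) : ℝ) := by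
        have : 0 < pr m (E i) - pr q (E i) := by omega
        exact_mod_cast this
      rw [div_le_div_iff₀ h8 h9] at h7
      have h10 : k * (pr m (E i) - pr q (E i)) ≤ (pr q w - pr m w) * K := by exact_mod_cast h7
      nlinarith
  have htr : Trop S (K • w + k • E i) := ⟨m', hm'S, m, hm, hne, by rw [hphi, hmm'], hphi.symm⟩
  have h5 := htrop _ hInn htr
  rw [aa, hphi, hpr, dot_add, dot_smul, dot_smul, hpr] at h5
  have h6 := hψ i
  have h7 : (1 : ℝ) + (phi S (E i) : ℝ) ≤ (pr m (E i) : ℝ) := by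
    have : 1 + phi S (E i) ≤ pr m (E i) := by omega
    exact_mod_cast this
  have h8 : (0 : ℝ) < (K : ℝ) := by exact_mod_cast hKpos
  have h9 : (0 : ℝ) < (k : ℝ) := by exact_mod_cast hkpos
  have h10 : (0 : ℝ) < (pr Q (E i) : ℝ) := by exact_mod_cast hQ i
  have h11 : (k : ℝ) * dot ψ (E i) ≤ k * (pr m (E i) : ℝ) :=
    mul_le_mul_of_nonneg_left (h6.trans h7) h9.le
  have h12 : (0 : ℝ) ≤ ε * (k * (pr Q (E i) : ℝ)) := by positivity
  push_cast at h5
  have h13 : (K : ℝ) * (ε * (pr Q w : ℝ)) ≤ K * aa ψ S w := by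
    rw [aa, ← h1]
    nlinarith
  exact le_of_mul_le_mul_left h13 h8

theorem step {N : ℕ} {E : Fin N → Fin n → ℤ} {S : Finset (Fin n → ℤ)} (hS : S.Nonempty)
    {ψ : Fin n → ℝ} (hP : ∀ m ∈ S, ∃ i, phi S (E i) < pr m (E i))
    (hψ : ∀ i, dot ψ (E i) ≤ 1 + (phi S (E i) : ℝ)) {Q : Fin n → ℤ} (hQ : ∀ i, 0 < pr Q (E i))
    {ε : ℝ} (hε : 0 < ε)
    (htrop : ∀ w, Inn E w → Trop S w → ε * (pr Q w : ℝ) ≤ aa ψ S w) :
    ∀ w, Inn E w → ∃ w', Inn E w' ∧ Trop S w' ∧ aa ψ S w' ≤ aa ψ S w := by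
  have hB : ∀ w, Inn E w → ε * (pr Q w : ℝ) ≤ aa ψ S w := by
    intro w hw
    by_cases ht : Trop S w
    · exact htrop w hw ht
    · obtain ⟨m, hm, h1, h2, i, hi⟩ := StepL.exists_unique_min hS hP ht
      exact StepL.partB hS hψ hQ hε htrop hw hm h1 h2 hi
  have hnn : ∀ w, Inn E w → pr Q w ≤ ⌈aa ψ S w / ε⌉ := by
    intro w hw
    have h1 : (pr Q w : ℝ) ≤ aa ψ S w / ε := by
      rw [le_div_iff₀ hε, mul_comm]
      exact hB w hw
    have h2 : (pr Q w : ℝ) ≤ (⌈aa ψ S w / ε⌉ : ℝ) := h1.trans (Int.le_ceil _)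
    exact_mod_cast h2
  have key : ∀ (c : ℕ) (w : Fin n → ℤ), Inn E w → ⌈aa ψ S w / ε⌉ - pr Q w ≤ c →
      ∃ w', Inn E w' ∧ Trop S w' ∧ aa ψ S w' ≤ aa ψ S w := by
    intro c
    induction c with
    | zero =>
      intro w hw hc
      by_cases ht : Trop S w
      · exact ⟨w, hw, ht, le_rfl⟩
      exfalso
      obtain ⟨m, hm, h1, h2, i, hi⟩ := StepL.exists_unique_min hS hP ht
      have h3 := StepL.partA hS hψ hm h1 h2 hi
      have h4 := hnn _ (hw.add i)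
      rw [pr_add_right] at h4
      have h5 : ⌈aa ψ S (w + E i) / ε⌉ ≤ ⌈aa ψ S w / ε⌉ :=
        Int.ceil_le_ceil (div_le_div_of_nonneg_right h3 hε.le)
      have h6 := hQ i
      simp only [Nat.cast_zero] at hc
      omega
    | succ c ih =>
      intro w hw hc
      by_cases ht : Trop S w
      · exact ⟨w, hw, ht, le_rfl⟩
      obtain ⟨m, hm, h1, h2, i, hi⟩ := StepL.exists_unique_min hS hP ht
      have h3 := StepL.partA hS hψ hm h1 h2 hi
      have h5 : ⌈aa ψ S (w + E i) / ε⌉ ≤ ⌈aa ψ S w / ε⌉ :=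
        Int.ceil_le_ceil (div_le_div_of_nonneg_right h3 hε.le)
      have h6 := hQ i
      obtain ⟨w', hw', htr, hle⟩ := ih (w + E i) (hw.add i) (by
        rw [pr_add_right]; push_cast at hc; omega)
      exact ⟨w', hw', htr, hle.trans h3⟩
  intro w hw
  exact key (⌈aa ψ S w / ε⌉ - pr Q w).toNat w hw (Int.self_le_toNat _)

end Pool.Agent.Helper43K9.NH
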