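import Pool.Agent.Helper43K9.NH.Can
import Pool.Agent.Helper43K9.NH.Pnt
import Pool.Agent.Helper43K9.NH.Step
import Pool.Agent.Helper43K9.NH.Comb
import Pool.Agent.Helper43K9.NH.Exi

set_option autoImplicit false
set_option linter.unusedSectionVars false
set_option linter.unusedVariables false

namespace Pool.Agent.Helper43K9.NH

open Pool.Agent.H436R3.Fol Pool.Agent.H436R3.KT Pool.Agent.W497.Mld MvPolynomial
open Pool.Agent.TH165.ACC (pr ex Prim Cn Hs lead part mldsR pr_add pr_zero pr_neg pr_sub pr_smul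
  pr_smul_right ex_add ex_inj exists_nat_ex exists_prim)

variable {n d : ℕ} {L : Type} [Field L] [Algebra ℂ L]

theorem Inn.ne_zero {g : HypGerm d L} {w : Fin (d + 1) → ℤ} (h : Inn g.E w) : w ≠ 0 := by
  rintro rfl
  obtain ⟨Q, hQ⟩ := g.pointed
  have hQ0 : Q ≠ 0 := by
    rintro rfl
    have h1 : ∀ j : Fin g.N, False := fun j => by
      have := hQ j
      rw [pr_zero] at this
      exact lt_irrefl _ this
    have h2 := g.full (Pi.single 0 1) fun j => (h1 j).elim
    have h3 := congrFun h2 0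
    simp at h3
  have h1 := h Q (fun j => (hQ j).le) hQ0
  rw [pr] at h1
  simp at h1

theorem trop_smul {S : Finset (Fin n → ℤ)} (hS : S.Nonempty) {w : Fin n → ℤ} {k : ℤ} (hk : 0 < k)
    (h : Trop S (k • w)) : Trop S w := by
  obtain ⟨m, hm, m', hm', hne, h1, h2⟩ := h
  rw [phi_smul hS hk.le, pr_smul_right] at h1 h2
  exact ⟨m, hm, m', hm', hne, mul_left_cancel₀ hk.ne' h1, mul_left_cancel₀ hk.ne' h2⟩

/-- a prime divisor over the germ with given primitive tropical weights -/
theorem exists_over {g : HypGerm d L} {w : Fin (d + 1) → ℤ} (hi : Inn g.E w) (hw : Prim w)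
    (ht : Trop (expo g.F) w) : ∃ v : DVal L, IsOverGerm g.P v ∧ wt g.y v = w ∧
      IsCanOrd g.X.T v (-1 - phi (expo g.F) w) := by
  obtain ⟨p, q, hp, h1, h2, h3⟩ := exists_factor g.Fne ht (g.nondeg w hi)
  obtain ⟨v, hv, rfl⟩ := exists_div g.yne g.Fne g.ker (frac_poly g) hw hp h1 h2 h3
  exact ⟨v, over_of_local hi hw hv, rfl, can_trop hi hw hv⟩

/-- the toric log discrepancy is a lower bound -/
theorem low_bound {g : HypGerm d L} {v : DVal L} (h : IsOverGerm g.P v) {c : ℤ}
    (hc : IsCanOrd g.X.T v c) : -1 - phi (expo g.F) (wt g.y v) ≤ c := by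
  obtain ⟨A, hA0, hA, rfl⟩ := hc.1
  exact can_low (inn_of_over h) A hA0 hA

theorem aa_conv (ψ ψ' : Fin n → ℝ) (S : Finset (Fin n → ℤ)) (t : ℝ) (w : Fin n → ℤ) :
    aa (fun j => (1 - t) * ψ j + t * ψ' j) S w = (1 - t) * aa ψ S w + t * aa ψ' S w := by
  have h : dot (fun j => (1 - t) * ψ j + t * ψ' j) w = (1 - t) * dot ψ w + t * dot ψ' w := by
    simp only [dot]
    rw [Finset.mul_sum, Finset.mul_sum, ← Finset.sum_add_distrib]
    exact Finset.sum_congr rfl fun i _ => by ring
  rw [aa, h, aa, aa]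
  ring

/-- **The minimal log discrepancy is the least toric log discrepancy.** -/
theorem formula {g : HypGerm d L} (hk : KltType g) (b : Bd g) {B : EffDiv g.X} {e : LocEq B g.P}
    (hr : IsRestr b e) {m : ℝ} (hm0 : 0 ≤ m) (hm : IsMld e m) :
    IsLeast {a | ∃ w, Inn g.E w ∧ aa b.ψ (expo g.F) w = a} m := by
  have hS := expo_nonempty g.Fne
  -- divisors with tropical weights
  have htrop : ∀ w, Inn g.E w → Trop (expo g.F) w → m ≤ aa b.ψ (expo g.F) w := by
    intro w hi ht
    obtain ⟨k, w', hk0, hw', rfl⟩ := exists_prim hi.ne_zero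
    obtain ⟨v, hv, hwt, hc⟩ := exists_over (hi.of_smul hk0) hw' (trop_smul hS hk0 ht)
    have h1 : m ≤ aa b.ψ (expo g.F) w' := by
      apply hm.2
      refine ⟨v, hv, _, hc, ?_⟩
      rw [hr, hwt, aa]
      push_cast
      ring
    rw [aa_smul _ hS hk0.le]
    have h2 : (1 : ℝ) ≤ k := by exact_mod_cast hk0
    nlinarith
  have hmin : ∀ w, Inn g.E w → m ≤ aa b.ψ (expo g.F) w := by
    intro w hi
    obtain ⟨b', ε, Q, hε, hQ, hlow⟩ := hk
    have htrop' : ∀ w, Inn g.E w → Trop (expo g.F) w →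
        ε * (pr Q w : ℝ) ≤ aa b'.ψ (expo g.F) w := by
      intro w hi ht
      obtain ⟨k, w', hk0, hw', rfl⟩ := exists_prim hi.ne_zero
      obtain ⟨v, hv, hwt, hc⟩ := exists_over (hi.of_smul hk0) hw' (trop_smul hS hk0 ht)
      have h1 := hlow v hv _ hc
      rw [hwt] at h1
      have h2 : ε * (pr Q w' : ℝ) ≤ aa b'.ψ (expo g.F) w' := by
        rw [aa]
        push_cast at h1
        linarith
      rw [aa_smul _ hS hk0.le, pr_smul_right]
      have h3 : (0 : ℝ) ≤ k := by exact_mod_cast hk0.le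
      push_cast
      nlinarith [mul_le_mul_of_nonneg_left h2 h3]
    by_contra hlt
    push Not at hlt
    set a0 := aa b.ψ (expo g.F) w with ha0
    set a1 := aa b'.ψ (expo g.F) w with ha1
    obtain ⟨t, ht0, ht1, ht2⟩ : ∃ t : ℝ, 0 < t ∧ t < 1 ∧ t * (|a1| + |a0| + 1 + m) < m - a0 := by
      have h0 : 0 < |a1| + |a0| + 1 + m := by positivity
      refine ⟨min (1 / 2) ((m - a0) / (2 * (|a1| + |a0| + 1 + m))), ?_, ?_, ?_⟩
      · exact lt_min (by norm_num) (div_pos (by linarith) (by positivity))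
      · exact (min_le_left _ _).trans_lt (by norm_num)
      · calc min (1 / 2) ((m - a0) / (2 * (|a1| + |a0| + 1 + m))) * (|a1| + |a0| + 1 + m)
            ≤ (m - a0) / (2 * (|a1| + |a0| + 1 + m)) * (|a1| + |a0| + 1 + m) :=
              mul_le_mul_of_nonneg_right (min_le_right _ _) h0.le
          _ = (m - a0) / 2 := by field_simp
          _ < m - a0 := by linarith
    obtain ⟨w', hi', hT', hle⟩ := step (E := g.E) (S := expo g.F) hS
      (ψ := fun j => (1 - t) * b.ψ j + t * b'.ψ j) (not_all_min g) (by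
        intro i
        have h1 : dot (fun j => (1 - t) * b.ψ j + t * b'.ψ j) (g.E i) =
            (1 - t) * dot b.ψ (g.E i) + t * dot b'.ψ (g.E i) := by
          simp only [dot]
          rw [Finset.mul_sum, Finset.mul_sum, ← Finset.sum_add_distrib]
          exact Finset.sum_congr rfl fun i _ => by ring
        rw [h1, b.eq, b'.eq]
        have h2 := b.nonneg i
        have h3 := b'.nonneg i
        nlinarith) hQ (mul_pos ht0 hε) (by
        intro w hi ht
        rw [aa_conv]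
        have h1 := htrop w hi ht
        have h2 := htrop' w hi ht
        nlinarith) w hi
    rw [aa_conv, aa_conv, ← ha0, ← ha1] at hle
    have h1 := htrop w' hi' hT'
    have h2 := htrop' w' hi' hT'
    have h3 : (0 : ℝ) ≤ ε * (pr Q w' : ℝ) := by
      refine mul_nonneg hε.le ?_
      have h4 : 0 < pr Q w' := by
        refine hi' Q (fun j => (hQ j).le) ?_
        rintro rfl
        have h5 : ∀ j : Fin g.N, False := fun j => by
          have := hQ j
          rw [pr_zero] at this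
          exact lt_irrefl _ this
        have h6 := g.full (Pi.single 0 1) fun j => (h5 j).elim
        have h7 := congrFun h6 0
        simp at h7
      exact_mod_cast h4.le
    have h4 := le_abs_self a1
    have h5 := neg_abs_le a0
    nlinarith [mul_nonneg ht0.le (sub_nonneg.2 h1), mul_nonneg ht0.le h3]
  refine ⟨?_, ?_⟩
  · obtain ⟨v, hv, c, hc, hmv⟩ := hm.1
    refine ⟨wt g.y v, inn_of_over hv, le_antisymm ?_ (hmin _ (inn_of_over hv))⟩
    have h1 : ((-1 - phi (expo g.F) (wt g.y v) : ℤ) : ℝ) ≤ (c : ℝ) := by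
      exact_mod_cast low_bound hv hc
    rw [hmv, hr, aa]
    push_cast at h1
    linarith
  · rintro _ ⟨w, hi, rfl⟩
    exact hmin w hi

/-- The minimal log discrepancies are values of the combinatorial ones. -/
theorem mem_comb {g : HypGerm d L} (hk : KltType g) (b : Bd g) {B : EffDiv g.X} {e : LocEq B g.P}
    (hr : IsRestr b e) {Γ : Set ℝ} (hΓ : ∀ i, b.β i ≠ 0 → b.β i ∈ Γ) {m : ℝ} (hm0 : 0 ≤ m)
    (hm : IsMld e m) : ∃ k ≤ d + 1, ∃ r, m ∈ mldsR k r (insert 1 Γ) := by
  obtain ⟨⟨w, hw, h1⟩, h2⟩ := formula hk b hr hm0 hm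
  refine mem_mlds (E := g.E) (S := expo g.F) (ψ := b.ψ) (β := b.β) (expo_nonempty g.Fne) b.nonneg
    b.eq (Set.mem_insert _ _) (fun i hi => Set.mem_insert_of_mem _ (hΓ i hi)) hw h1 ?_
  intro u hu
  exact h2 ⟨u, hu, rfl⟩

theorem dcc_insert {Γ : Set ℝ} (h : Pool.Agent.TH165.ACC.IsDCC Γ) :
    Pool.Agent.TH165.ACC.IsDCC (insert 1 Γ) := by
  intro u hu hmem
  by_cases h1 : ∃ K, ∀ k ≥ K, u k ∈ Γ
  · obtain ⟨K, hK⟩ := h1
    obtain ⟨K', hK'⟩ := h (fun k => u (k + K)) (fun a b hab => hu (Nat.add_le_add_right hab K))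
      fun k => hK _ (Nat.le_add_left _ _)
    refine ⟨K' + K, fun k hk => ?_⟩
    obtain ⟨j, rfl⟩ : ∃ j, k = j + K := ⟨k - K, by omega⟩
    exact hK' j (by omega)
  · push Not at h1
    obtain ⟨k0, hk0, hk0'⟩ := h1 0
    have e0 : u k0 = 1 := (hmem k0).resolve_right hk0'
    refine ⟨k0, fun k hk => ?_⟩
    obtain ⟨j, hj, hj'⟩ := h1 k
    have e1 : u j = 1 := (hmem j).resolve_right hj'
    exact le_antisymm (hu hk) (by rw [e0, ← e1]; exact hu hj)

end Pool.Agent.Helper43K9.NH
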