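import Pool.Agent.Helper43K9.NH.Defs

set_option autoImplicit false
set_option linter.unusedSectionVars false
set_option linter.unusedVariables false

namespace Pool.Agent.Helper43K9.NH

open Pool.Agent.H436R3.Fol Pool.Agent.H436R3.KT Pool.Agent.W497.Mld MvPolynomial
open Pool.Agent.TH165.ACC (pr ex Prim Cn Hs lead part mldsR pr_add pr_zero pr_neg pr_sub pr_smul
  pr_smul_right ex_add ex_inj exists_nat_ex)

variable {n d : ℕ} {L : Type} [Field L] [Algebra ℂ L] {y : Fin n → L}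

section ch

theorem ch_ne (hy : ∀ i, y i ≠ 0) (m : Fin n → ℤ) : ch y m ≠ 0 :=
  Finset.prod_ne_zero_iff.2 fun i _ => zpow_ne_zero _ (hy i)

theorem ch_add (hy : ∀ i, y i ≠ 0) (m m' : Fin n → ℤ) : ch y (m + m') = ch y m * ch y m' := by
  simp only [ch, Pi.add_apply, ← Finset.prod_mul_distrib]
  exact Finset.prod_congr rfl fun i _ => zpow_add₀ (hy i) _ _

theorem ch_zero : ch y (0 : Fin n → ℤ) = 1 := by simp [ch]

theorem ch_neg (m : Fin n → ℤ) : ch y (-m) = (ch y m)⁻¹ := by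
  simp only [ch, Pi.neg_apply, zpow_neg, Finset.prod_inv_distrib]

theorem ch_mul_neg (hy : ∀ i, y i ≠ 0) (m : Fin n → ℤ) : ch y m * ch y (-m) = 1 := by
  rw [← ch_add hy, add_neg_cancel, ch_zero]

theorem ch_sub (hy : ∀ i, y i ≠ 0) (m m' : Fin n → ℤ) : ch y (m - m') = ch y m * (ch y m')⁻¹ := by
  rw [sub_eq_add_neg, ch_add hy, ch_neg]

theorem ch_smul (hy : ∀ i, y i ≠ 0) (k : ℤ) (m : Fin n → ℤ) : ch y (k • m) = ch y m ^ k := by
  simp only [ch, Pi.smul_apply, smul_eq_mul]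
  rw [← Finset.prod_zpow]
  exact Finset.prod_congr rfl fun i _ => by rw [mul_comm, zpow_mul]

theorem ch_ex (s : Fin n →₀ ℕ) : ch y (ex s) = aeval y (monomial s (1 : ℂ)) := by
  rw [aeval_monomial, map_one, one_mul, Finsupp.prod_fintype _ _ (fun i => pow_zero _)]
  simp only [ch, Pool.Agent.TH165.ACC.ex, zpow_natCast]

theorem aeval_mon (s : Fin n →₀ ℕ) (c : ℂ) :
    aeval y (monomial s c) = algebraMap ℂ L c * ch y (ex s) := by
  rw [ch_ex, aeval_monomial, aeval_monomial, map_one, one_mul]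

theorem aeval_eq_sum (p : MvPolynomial (Fin n) ℂ) :
    aeval y p = ∑ s ∈ p.support, algebraMap ℂ L (p.coeff s) * ch y (ex s) := by
  conv_lhs => rw [p.as_sum]
  rw [map_sum]
  exact Finset.sum_congr rfl fun s _ => aeval_mon s _

theorem ord_ch (hy : ∀ i, y i ≠ 0) (v : DVal L) (m : Fin n → ℤ) :
    v.ord (ch y m) = pr m (wt y v) := by
  rw [ch, v.ord_prod _ _ fun i _ => zpow_ne_zero _ (hy i), pr]
  exact Finset.sum_congr rfl fun i _ => v.ord_zpow (hy i) _

theorem ch_mem_AA {C : Set (Fin n → ℤ)} {m : Fin n → ℤ} (h : m ∈ C) : ch y m ∈ AA y C :=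
  Algebra.subset_adjoin ⟨m, h, rfl⟩

theorem AA_mono {C C' : Set (Fin n → ℤ)} (h : C ⊆ C') : AA y C ≤ AA y C' :=
  Algebra.adjoin_mono (Set.image_mono h)

theorem aeval_mul_mem_AA (hy : ∀ i, y i ≠ 0) {C : Set (Fin n → ℤ)} {p : MvPolynomial (Fin n) ℂ}
    {m : Fin n → ℤ} (h : ∀ s ∈ p.support, ex s + m ∈ C) : aeval y p * ch y m ∈ AA y C := by
  rw [aeval_eq_sum, Finset.sum_mul]
  refine sum_mem fun s hs => ?_
  rw [mul_assoc, ← ch_add hy]
  exact mul_mem (Subalgebra.algebraMap_mem _ _) (ch_mem_AA (h s hs))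

theorem reg_AA (hy : ∀ i, y i ≠ 0) {C : Set (Fin n → ℤ)} {v : DVal L}
    (h : ∀ m ∈ C, 0 ≤ pr m (wt y v)) {f : L} (hf : f ∈ AA y C) : v.Reg f := by
  induction hf using Algebra.adjoin_induction with
  | mem x hx =>
    obtain ⟨m, hm, rfl⟩ := hx
    right
    rw [ord_ch hy]
    exact h m hm
  | algebraMap r => exact v.reg_const r
  | add x y _ _ hx hy => exact v.reg_add hx hy
  | mul x y _ _ hx hy => exact v.reg_mul hx hy

theorem fg_Hs' (hy : ∀ i, y i ≠ 0) {u : Fin n → ℤ} (hu : Prim u) : (AA y (Hs u)).FG := by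
  obtain ⟨m1, hm1⟩ := hu
  let φ : (Fin n → ℤ) →ₗ[ℤ] ℤ :=
    { toFun := fun m => pr m u
      map_add' := fun a b => pr_add a b u
      map_smul' := fun k a => pr_smul k a u }
  obtain ⟨T, hT⟩ := (IsNoetherian.noetherian (LinearMap.ker φ) : (LinearMap.ker φ).FG)
  have hTk : ∀ t ∈ T, pr t u = 0 := by
    intro t ht
    have : t ∈ LinearMap.ker φ := by rw [← hT]; exact Submodule.subset_span ht
    exact this
  classical
  let G : Finset L := insert (ch y m1) (T.image (ch y) ∪ T.image fun t => ch y (-t))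
  refine ⟨G, ?_⟩
  apply le_antisymm
  · apply Algebra.adjoin_le
    intro x hx
    simp only [G, Finset.coe_insert, Finset.coe_union, Finset.coe_image, Set.mem_insert_iff,
      Set.mem_union, Set.mem_image, Finset.mem_coe] at hx
    rcases hx with rfl | ⟨t, ht, rfl⟩ | ⟨t, ht, rfl⟩
    · exact ch_mem_AA (by change 0 ≤ pr _ _; rw [hm1]; norm_num)
    · exact ch_mem_AA (by change 0 ≤ pr _ _; rw [hTk t ht])
    · exact ch_mem_AA (by change 0 ≤ pr _ _; rw [pr_neg, hTk t ht]; norm_num)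
  · apply Algebra.adjoin_le
    rintro _ ⟨m, hm, rfl⟩
    have hk : ∀ k ∈ LinearMap.ker φ, ch y k ∈ Algebra.adjoin ℂ (G : Set L) ∧
        ch y (-k) ∈ Algebra.adjoin ℂ (G : Set L) := by
      intro k hk
      rw [← hT] at hk
      induction hk using Submodule.span_induction with
      | mem x hx =>
        constructor
        · refine Algebra.subset_adjoin ?_
          simp only [G, Finset.coe_insert, Finset.coe_union, Finset.coe_image]
          exact Or.inr (Or.inl ⟨x, hx, rfl⟩)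
        · refine Algebra.subset_adjoin ?_
          simp only [G, Finset.coe_insert, Finset.coe_union, Finset.coe_image]
          exact Or.inr (Or.inr ⟨x, hx, rfl⟩)
      | zero => rw [neg_zero, ch_zero]; exact ⟨one_mem _, one_mem _⟩
      | add x z _ _ hx hz =>
        rw [neg_add, ch_add hy, ch_add hy]
        exact ⟨mul_mem hx.1 hz.1, mul_mem hx.2 hz.2⟩
      | smul a x _ hx =>
        have hpow : ∀ (N : ℕ) (w : Fin n → ℤ), ch y ((N : ℤ) • w) = ch y w ^ N := by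
          intro N w
          rw [ch_smul hy, zpow_natCast]
        obtain ⟨N, rfl | rfl⟩ := a.eq_nat_or_neg
        · rw [← smul_neg, hpow, hpow]
          exact ⟨pow_mem hx.1 _, pow_mem hx.2 _⟩
        · rw [neg_smul, neg_neg, ← smul_neg, hpow, hpow]
          exact ⟨pow_mem hx.2 _, pow_mem hx.1 _⟩
    have h1 : m - pr m u • m1 ∈ LinearMap.ker φ := by
      change pr _ _ = 0
      rw [pr_sub, pr_smul, hm1, mul_one, sub_self]
    have h2 : ch y m = ch y m1 ^ (pr m u).toNat * ch y (m - pr m u • m1) := by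
      rw [← zpow_natCast, ← ch_smul hy, ← ch_add hy, Int.toNat_of_nonneg hm]
      congr 1
      abel
    rw [h2]
    refine mul_mem (pow_mem (Algebra.subset_adjoin ?_) _) (hk _ h1).1
    simp only [G, Finset.coe_insert]
    exact Or.inl rfl

end ch

section phi

variable {S : Finset (Fin n → ℤ)}

theorem phi_spec (hS : S.Nonempty) (w : Fin n → ℤ) :
    (∃ m ∈ S, pr m w = phi S w) ∧ ∀ m ∈ S, phi S w ≤ pr m w := by
  obtain ⟨m0, hm0, hmin⟩ := S.exists_min_image (fun m => pr m w) hS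
  have h : IsLeast ((fun m => pr m w) '' (S : Set (Fin n → ℤ))) (pr m0 w) := by
    refine ⟨⟨m0, hm0, rfl⟩, ?_⟩
    rintro _ ⟨m, hm, rfl⟩
    exact hmin m hm
  have h1 : phi S w = pr m0 w := h.csInf_eq
  rw [h1]
  exact ⟨⟨m0, hm0, rfl⟩, hmin⟩

theorem phi_eq {w : Fin n → ℤ} {k : ℤ} (h1 : ∃ m ∈ S, pr m w = k) (h2 : ∀ m ∈ S, k ≤ pr m w) :
    phi S w = k := by
  obtain ⟨m, hm, rfl⟩ := h1
  obtain ⟨⟨m', hm', h3⟩, h4⟩ := phi_spec ⟨m, hm⟩ w
  have := h4 m hm
  have := h2 m' hm'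
  omega

theorem phi_smul (hS : S.Nonempty) {k : ℤ} (hk : 0 ≤ k) (w : Fin n → ℤ) :
    phi S (k • w) = k * phi S w := by
  obtain ⟨⟨m, hm, h1⟩, h2⟩ := phi_spec hS w
  apply phi_eq
  · exact ⟨m, hm, by rw [pr_smul_right, h1]⟩
  · intro m' hm'
    rw [pr_smul_right]
    exact mul_le_mul_of_nonneg_left (h2 m' hm') hk

theorem dot_add (ψ : Fin n → ℝ) (w w' : Fin n → ℤ) : dot ψ (w + w') = dot ψ w + dot ψ w' := by
  simp only [dot, Pi.add_apply]
  rw [← Finset.sum_add_distrib]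
  exact Finset.sum_congr rfl fun i _ => by push_cast; ring

theorem dot_smul (ψ : Fin n → ℝ) (k : ℤ) (w : Fin n → ℤ) : dot ψ (k • w) = k * dot ψ w := by
  simp only [dot, Pi.smul_apply, smul_eq_mul]
  rw [Finset.mul_sum]
  exact Finset.sum_congr rfl fun i _ => by push_cast; ring

theorem aa_smul (ψ : Fin n → ℝ) (hS : S.Nonempty) {k : ℤ} (hk : 0 ≤ k) (w : Fin n → ℤ) :
    aa ψ S (k • w) = k * aa ψ S w := by
  rw [aa, aa, dot_smul, phi_smul hS hk]
  push_cast
  ring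

theorem mem_expo {F : MvPolynomial (Fin n) ℂ} {m : Fin n → ℤ} :
    m ∈ expo F ↔ ∃ s ∈ F.support, ex s = m := by
  rw [expo, Finset.mem_image]

theorem expo_nonempty {F : MvPolynomial (Fin n) ℂ} (hF : F ≠ 0) : (expo F).Nonempty := by
  obtain ⟨s, hs⟩ : F.support.Nonempty := by
    rwa [Finset.nonempty_iff_ne_empty, Ne, support_eq_empty]
  exact ⟨ex s, mem_expo.2 ⟨s, hs, rfl⟩⟩

theorem phi_expo {F : MvPolynomial (Fin n) ℂ} (hF : F ≠ 0) (w : Fin n → ℤ) :
    (∃ s ∈ F.support, phi (expo F) w = pr (ex s) w) ∧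
      ∀ s ∈ F.support, phi (expo F) w ≤ pr (ex s) w := by
  obtain ⟨⟨m, hm, h1⟩, h2⟩ := phi_spec (expo_nonempty hF) w
  obtain ⟨s, hs, rfl⟩ := mem_expo.1 hm
  exact ⟨⟨s, hs, h1.symm⟩, fun t ht => h2 _ (mem_expo.2 ⟨t, ht, rfl⟩)⟩

theorem Inn.add {N : ℕ} {E : Fin N → Fin n → ℤ} {w : Fin n → ℤ} (h : Inn E w) (i : Fin N) :
    Inn E (w + E i) := by
  intro m hm h0
  have h1 := h m hm h0
  have h2 := hm i
  have h3 : pr m (w + E i) = pr m w + pr m (E i) := by
    simp only [pr, Pi.add_apply, mul_add, Finset.sum_add_distrib]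
  omega

theorem pr_add_right (m u w : Fin n → ℤ) : pr m (u + w) = pr m u + pr m w := by
  simp only [pr, Pi.add_apply, mul_add, Finset.sum_add_distrib]

theorem Inn.smul {N : ℕ} {E : Fin N → Fin n → ℤ} {w : Fin n → ℤ} (h : Inn E w) {k : ℤ}
    (hk : 0 < k) : Inn E (k • w) := by
  intro m hm h0
  rw [pr_smul_right]
  exact mul_pos hk (h m hm h0)

theorem Inn.of_smul {N : ℕ} {E : Fin N → Fin n → ℤ} {w : Fin n → ℤ} {k : ℤ}
    (hk : 0 < k) (h : Inn E (k • w)) : Inn E w := by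
  intro m hm h0
  have h1 := h m hm h0
  rw [pr_smul_right] at h1
  exact (pos_iff_pos_of_mul_pos h1).1 hk

end phi

end Pool.Agent.Helper43K9.NH
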