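import Mathlib
import Pool.Agent.TH165.ACC.NFin
import Pool.Agent.W497.Mld.Dvr

/-!
# Nondegenerate hypersurfaces in affine toric varieties: definitions
-/

set_option autoImplicit false

namespace Pool.Agent.Helper43K9.NH

open Pool.Agent.H436R3.Fol Pool.Agent.H436R3.KT Pool.Agent.W497.Mld MvPolynomial
open Pool.Agent.TH165.ACC (pr ex Prim Cn Hs lead part mldsR)

variable {n d : ℕ} {L : Type} [Field L] [Algebra ℂ L]

/-- The Laurent monomial with exponent vector `m`, evaluated at `y`. -/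
noncomputable def ch (y : Fin n → L) (m : Fin n → ℤ) : L := ∏ i, y i ^ m i

/-- The algebra of the Laurent polynomials with exponents in `C`, evaluated at `y`. -/
noncomputable def AA (y : Fin n → L) (C : Set (Fin n → ℤ)) : Subalgebra ℂ L :=
  Algebra.adjoin ℂ (ch y '' C)

/-- The weight vector of the valuation `v`: the orders of the coordinates. -/
def wt (y : Fin n → L) (v : DVal L) : Fin n → ℤ := fun i => v.ord (y i)

/-- `w` is a lattice vector in the interior of the cone spanned by the vectors `E i`. -/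
def Inn {N : ℕ} (E : Fin N → Fin n → ℤ) (w : Fin n → ℤ) : Prop :=
  ∀ m ∈ Cn E, m ≠ 0 → 0 < pr m w

/-- The exponents of the monomials of the polynomial `F`. -/
noncomputable def expo (F : MvPolynomial (Fin n) ℂ) : Finset (Fin n → ℤ) :=
  F.support.image ex

/-- The least weight of a monomial in `S`. -/
noncomputable def phi (S : Finset (Fin n → ℤ)) (w : Fin n → ℤ) : ℤ :=
  sInf ((fun m => pr m w) '' (S : Set (Fin n → ℤ)))

/-- `ψ · w` -/
def dot (ψ : Fin n → ℝ) (w : Fin n → ℤ) : ℝ := ∑ j, ψ j * (w j : ℝ)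

/-- The toric log discrepancy `ψ · w - φ (w)` -/
noncomputable def aa (ψ : Fin n → ℝ) (S : Finset (Fin n → ℤ)) (w : Fin n → ℤ) : ℝ :=
  dot ψ w - (phi S w : ℝ)

/-- the least weight is attained twice -/
def Trop (S : Finset (Fin n → ℤ)) (w : Fin n → ℤ) : Prop :=
  ∃ m ∈ S, ∃ m' ∈ S, m ≠ m' ∧ pr m w = phi S w ∧ pr m' w = phi S w

/-- A nondegenerate hypersurface `X` of dimension `d` in the affine toric variety `Y` of dimension
`d + 1` of the strictly convex cone of dimension `d + 1` whose edges are spanned by the primitive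
vectors `E 1, ..., E N`, through the fixed point `P` of `Y`. The field `L` is the function field of
`X`, `y` are the restrictions to `X` of the coordinates of the torus and `F` is the equation of `X`
in the torus. The canonical divisor of `X` is the one of the residue of
`dy_0 / y_0 ∧ ... ∧ dy_d / y_d / F`, that is of the form
`(-1)^k (y_k ∂F/∂y_k)⁻¹ ∧_{i ≠ k} dy_i / y_i` (for all `k`). -/
structure HypGerm (d : ℕ) (L : Type) [Field L] [Algebra ℂ L] where
  N : ℕ
  /-- the primitive generators of the edges of the cone -/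
  E : Fin N → Fin (d + 1) → ℤ
  prim : ∀ i, Prim (E i)
  /-- `E i` spans an edge: a face of the cone of dimension one -/
  edge : ∀ i, ∃ Q : Fin (d + 1) → ℤ, pr Q (E i) = 0 ∧ ∀ j, j ≠ i → 0 < pr Q (E j)
  /-- the cone is strictly convex -/
  pointed : ∃ Q : Fin (d + 1) → ℤ, ∀ j, 0 < pr Q (E j)
  /-- the cone has dimension `d + 1` -/
  full : ∀ m : Fin (d + 1) → ℤ, (∀ i, pr m (E i) = 0) → m = 0
  /-- the coordinates of the torus, restricted to `X` -/
  y : Fin (d + 1) → L
  yne : ∀ i, y i ≠ 0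
  /-- the equation of `X` -/
  F : MvPolynomial (Fin (d + 1)) ℂ
  Fne : F ≠ 0
  ker : ∀ p : MvPolynomial (Fin (d + 1)) ℂ, aeval y p = 0 ↔ F ∣ p
  X : AffVar L
  /-- `X` is a closed subvariety of `Y` -/
  hR : X.R = AA y (Cn E)
  e : Fin X.d ≃ Fin d
  /-- the canonical divisor is the one of the residue form -/
  res : ∀ k : Fin (d + 1), (Matrix.of fun (j i : Fin d) =>
    X.T.D (e.symm j) (y (k.succAbove i)) / y (k.succAbove i)).det =
      (-1) ^ (k : ℕ) * aeval y (MvPolynomial.X k * pderiv k F)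
  P : Pt X
  /-- `P` is the fixed point -/
  hP : ∀ f : X.R, ∀ m ∈ Cn E, m ≠ 0 → (f : L) = ch y m → P f = 0
  /-- for all weights in the interior of the cone the zero set in the torus of the initial form of
  `F` is smooth -/
  nondeg : ∀ w, Inn E w → ∀ ξ : Fin (d + 1) → ℂ, (∀ i, ξ i ≠ 0) → eval ξ (lead w F) = 0 →
    ∃ i, eval ξ (pderiv i (lead w F)) ≠ 0

/-- A toric boundary `∑ β_i D_i` on `Y` such that `K_Y + X + ∑ β_i D_i` is `ℝ`-Cartier at `P`, with
the local equation `y^(-ψ)`. (With the `(d + 1)`-form `dy_0 / y_0 ∧ ... ∧ dy_d / y_d / F` this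
divisor is `∑ (β_i - 1 - φ (E_i)) D_i`, where `φ (E_i)` is the order of `F` along `D_i`.) -/
structure Bd (g : HypGerm d L) where
  β : Fin g.N → ℝ
  nonneg : ∀ i, 0 ≤ β i
  ψ : Fin (d + 1) → ℝ
  eq : ∀ i, dot ψ (g.E i) = 1 - β i + (phi (expo g.F) (g.E i) : ℝ)

variable {g : HypGerm d L}

/-- `K_X + B` is the restriction to `X` of `K_Y + X + ∑ β_i D_i`. -/
def IsRestr (b : Bd g) {B : EffDiv g.X} (e : LocEq B g.P) : Prop :=
  ∀ v : DVal L, ∑ k, e.ρ k * (v.ord (e.g k) : ℝ) = -dot b.ψ (wt g.y v)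

/-- `X` is of klt type: for some toric boundary `∑ β_i D_i` the pair `(X, B)`,
`K_X + B = (K_Y + X + ∑ β_i D_i)|_X`, is klt: the log discrepancies are bounded from below by a
positive multiple of the order of a monomial which vanishes on the boundary of `Y`. -/
def KltType (g : HypGerm d L) : Prop :=
  ∃ (b : Bd g) (ε : ℝ) (Q : Fin (d + 1) → ℤ), 0 < ε ∧ (∀ i, 0 < pr Q (g.E i)) ∧
    ∀ v, IsOverGerm g.P v → ∀ c : ℤ, IsCanOrd g.X.T v c →
      ε * (pr Q (wt g.y v) : ℝ) ≤ 1 + (c : ℝ) + dot b.ψ (wt g.y v)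

end Pool.Agent.Helper43K9.NH
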