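import Pool.Agent.Helper43K9.NH.Base

/-!
# [DVR] Prime divisors from prime ideals with a principal localisation
-/

set_option autoImplicit false
set_option linter.unusedSectionVars false
set_option linter.unusedVariables false

namespace Pool.Agent.Helper43K9.NH

open Pool.Agent.H436R3.Fol Pool.Agent.H436R3.KT Pool.Agent.W497.Mld MvPolynomial
open Pool.Agent.TH165.ACC (pr ex Prim Cn Hs lead part mldsR pr_add pr_zero pr_neg pr_sub pr_smul
  pr_smul_right ex_add ex_inj exists_nat_ex)

variable {n d : ℕ} {L : Type} [Field L] [Algebra ℂ L]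

theorem exists_dval_unif {S : Subalgebra ℂ L} (hfg : S.FG)
    (hfrac : ∀ f : L, ∃ a b : L, a ∈ S ∧ b ∈ S ∧ b ≠ 0 ∧ f * b = a)
    (P : Ideal S) (hP : P.IsPrime) (π : S) (hπ0 : π ≠ 0) (hπP : π ∈ P)
    (hloc : ∀ a ∈ P, ∃ s : S, s ∉ P ∧ ∃ b : S, s * a = π * b) :
    ∃ w : DVal L, IsLocalRing' S w ∧ (∀ f : S, w.Pos (f : L) ↔ f ∈ P) ∧ w.ord (π : L) = 1 := by
  have hfr : IsFractionRing S L := fractionRing_of hfrac
  have hft : Algebra.FiniteType ℂ S := (Subalgebra.fg_iff_finiteType _).1 hfg
  have hnoe : IsNoetherianRing S := Algebra.FiniteType.isNoetherianRing ℂ S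
  have hS : P.primeCompl ≤ nonZeroDivisors S := P.primeCompl_le_nonZeroDivisors
  let A : Subalgebra S L := Localization.subalgebra.ofField L P.primeCompl hS
  have hloc' : IsLocalization.AtPrime A P :=
    Localization.subalgebra.isLocalization_ofField L P.primeCompl hS
  have hlr : IsLocalRing A := IsLocalization.AtPrime.isLocalRing A P
  have hnA : IsNoetherianRing A := IsLocalization.isNoetherianRing P.primeCompl A hnoe
  have hinjA : Function.Injective (algebraMap S A) := IsLocalization.injective A hS
  have hmem : ∀ f : S, algebraMap S A f ∈ IsLocalRing.maximalIdeal A ↔ f ∈ P := fun f =>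
    IsLocalization.AtPrime.to_map_mem_maximal_iff A P f hlr
  set ϖ : A := algebraMap S A π with hϖ
  have hϖ0 : ϖ ≠ 0 := by
    intro h
    exact hπ0 (hinjA (by rw [← hϖ, h, map_zero]))
  have hnf : ¬ IsField A := by
    intro h
    have h1 := IsLocalRing.isField_iff_maximalIdeal_eq.1 h
    have h2 := (hmem π).2 hπP
    rw [h1, Ideal.mem_bot] at h2
    exact hϖ0 h2
  have hmax : IsLocalRing.maximalIdeal A = Ideal.span {ϖ} := by
    apply le_antisymm
    · intro x hx
      rw [Ideal.mem_span_singleton]
      obtain ⟨a, t, hat⟩ := IsLocalization.exists_mk'_eq P.primeCompl x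
      have ha : a ∈ P := by
        rw [← hmem, ← IsLocalization.mk'_spec A a t, hat]
        exact Ideal.mul_mem_right _ _ hx
      obtain ⟨s, hs, b, hsb⟩ := hloc a ha
      have hsu : IsUnit (algebraMap S A s) :=
        IsLocalization.map_units A (⟨s, hs⟩ : P.primeCompl)
      have htu : IsUnit (algebraMap S A t) := IsLocalization.map_units A t
      obtain ⟨s', hs'⟩ := hsu.exists_right_inv
      obtain ⟨t', ht'⟩ := htu.exists_right_inv
      have h1 : algebraMap S A s * algebraMap S A a = ϖ * algebraMap S A b := by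
        rw [← map_mul, hsb, map_mul]
      have h2 : x * algebraMap S A t = algebraMap S A a := by
        rw [← hat]
        exact IsLocalization.mk'_spec A a t
      refine ⟨algebraMap S A b * s' * t', ?_⟩
      calc x = x * (algebraMap S A t * t') * (algebraMap S A s * s') := by
            rw [hs', ht', mul_one, mul_one]
        _ = (algebraMap S A s * (x * algebraMap S A t)) * s' * t' := by ring
        _ = ϖ * (algebraMap S A b * s' * t') := by rw [h2, h1]; ring
    · rw [Ideal.span_singleton_le_iff_mem]
      exact (hmem π).2 hπP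
  have hdvr : IsDiscreteValuationRing A := by
    have h := (IsDiscreteValuationRing.TFAE A hnf).out 4 0
    exact h.1 ⟨ϖ, hmax⟩
  have hirr : Irreducible ϖ := by
    rw [IsDiscreteValuationRing.irreducible_iff_uniformizer]
    exact hmax
  have hπp : Prime ϖ := hirr.prime
  have hπm : ∀ a : A, ϖ ∣ a ↔ a ∈ IsLocalRing.maximalIdeal A := by
    intro a
    rw [hmax, Ideal.mem_span_singleton]
  refine ⟨valP L ϖ hπp, ⟨?_, ?_⟩, ?_, ?_⟩
  · intro f hf
    exact valP_reg hπp (algebraMap S A ⟨f, hf⟩)
  · intro f hf
    obtain ⟨a, b, hb, hpb, rfl⟩ := exists_frac_of_reg hπp hf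
    have hbu : IsUnit b := by
      by_contra h
      exact hpb ((hπm b).2 ((IsLocalRing.mem_maximalIdeal b).2 h))
    obtain ⟨c, hc⟩ := hbu.exists_left_inv
    have h1 : algebraMap A L a / algebraMap A L b = algebraMap A L (a * c) := by
      have hb' : algebraMap A L b ≠ 0 := by
        intro h0
        exact hb ((map_eq_zero_iff _ (IsFractionRing.injective A L)).1 h0)
      rw [div_eq_iff hb', ← map_mul, mul_assoc, hc, mul_one]
    obtain ⟨s, t, hst⟩ := IsLocalization.exists_mk'_eq P.primeCompl (a * c)
    have h2 : algebraMap A L (a * c) * ((t : S) : L) = ((s : S) : L) := by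
      have h3 := IsLocalization.mk'_spec A s t
      rw [hst] at h3
      have h4 := congrArg (algebraMap A L) h3
      rw [map_mul] at h4
      exact h4
    have ht0 : (t : S) ≠ 0 := by
      intro h0
      apply t.2
      rw [h0]
      exact P.zero_mem
    refine ⟨((s : S) : L), ((t : S) : L), s.2, (t : S).2, ?_, ?_, ?_⟩
    · intro h0
      exact ht0 (Subtype.ext h0)
    · have h5 : (valP L ϖ hπp).ord (algebraMap A L (algebraMap S A t)) =
          (multiplicity ϖ (algebraMap S A t) : ℤ) := valP_ord hπp (by
            intro h0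
            exact ht0 (hinjA (by rw [h0, map_zero])))
      have h6 : ¬ ϖ ∣ algebraMap S A t := by
        rw [hπm, hmem]
        exact t.2
      rw [multiplicity_eq_zero.2 h6] at h5
      exact h5
    · rw [h1]
      exact h2
  · intro f
    have h1 := valP_pos_iff (K := L) hπp (algebraMap S A f)
    rw [hπm, hmem] at h1
    exact h1
  · have h5 : (valP L ϖ hπp).ord (algebraMap A L ϖ) = (multiplicity ϖ ϖ : ℤ) :=
      valP_ord hπp hϖ0
    rw [multiplicity_self] at h5
    exact h5

end Pool.Agent.Helper43K9.NH
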