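import Pool.Agent.Helper43K9.NH.Base

set_option autoImplicit false
set_option linter.unusedSectionVars false
set_option linter.unusedVariables false

namespace Pool.Agent.Helper43K9.NH

open Pool.Agent.H436R3.Fol Pool.Agent.H436R3.KT Pool.Agent.W497.Mld MvPolynomial
open Pool.Agent.TH165.ACC (pr ex Prim Cn Hs lead part mldsR pr_add pr_zero pr_neg pr_sub pr_smul
  pr_smul_right ex_add ex_inj exists_nat_ex mvI mem_mvI ord_eq_zero_of_notMem lead_eq
  euler_part support_euler)

variable {n d : ℕ} {L : Type} [Field L] [Algebra ℂ L]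

/-- the weights of a divisor over the germ lie in the interior of the cone -/
theorem inn_of_over {g : HypGerm d L} {v : DVal L} (h : IsOverGerm g.P v) :
    Inn g.E (wt g.y v) := by
  intro m hm hm0
  have hmem : ch g.y m ∈ g.X.R := by
    rw [g.hR]
    exact ch_mem_AA hm
  have h1 := (h.2 ⟨ch g.y m, hmem⟩).2 (g.hP _ m hm hm0 rfl)
  rcases h1 with h1 | h1
  · exact absurd h1 (ch_ne g.yne _)
  · rw [← ord_ch g.yne]
    exact h1

section phi

variable {y : Fin n → L} (hy : ∀ i, y i ≠ 0) {v : DVal L} {π : L} (hπ : π ≠ 0) (h1 : v.ord π = 1)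

include hy hπ h1 in
theorem reg_unit' (i : Fin n) : v.Reg (y i * π ^ (-v.ord (y i))) := by
  right
  rw [v.map_mul _ _ (hy i) (zpow_ne_zero _ hπ), v.ord_zpow hπ, h1]
  omega

/-- the evaluation at the normalised coordinates -/
noncomputable def Phi' : MvPolynomial (Fin n) ℂ →+* v.O :=
  eval₂Hom ((algebraMap ℂ L).codRestrict v.O fun c => v.reg_const c)
    fun i => ⟨y i * π ^ (-v.ord (y i)), reg_unit' hy hπ h1 i⟩

theorem Phi'_monomial (s : Fin n →₀ ℕ) (c : ℂ) : (Phi' hy hπ h1 (monomial s c) : L) =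
    aeval y (monomial s c) * π ^ (-pr (ex s) (wt y v)) := by
  have key : ∀ S : Finset (Fin n), (∏ i ∈ S, (π ^ (-v.ord (y i))) ^ s i) =
      π ^ (-∑ i ∈ S, (s i : ℤ) * v.ord (y i)) := by
    intro S
    induction S using Finset.induction_on with
    | empty => simp
    | insert a S ha ih =>
      rw [Finset.prod_insert ha, Finset.sum_insert ha, neg_add, zpow_add₀ hπ, ih]
      congr 1
      rw [← zpow_natCast, ← zpow_mul]
      congr 1
      ring
  rw [Phi', coe_eval₂Hom, eval₂_monomial, Finsupp.prod_fintype _ _ (fun i => pow_zero _),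
    aeval_mon, ch]
  push_cast
  simp only [mul_pow, Finset.prod_mul_distrib, key, Pool.Agent.TH165.ACC.ex, zpow_natCast,
    mul_assoc]
  rfl

theorem reg_mul_zpow' {q : MvPolynomial (Fin n) ℂ} {m : ℤ}
    (h : ∀ s ∈ q.support, m ≤ pr (ex s) (wt y v)) : v.Reg (aeval y q * π ^ (-m)) ∧
      v.Pos (aeval y q * π ^ (-m) - (Phi' hy hπ h1 (part (wt y v) m q) : L)) := by
  classical
  have hterm : ∀ s ∈ q.support, v.Reg (aeval y (monomial s (q.coeff s)) * π ^ (-m)) ∧
      (pr (ex s) (wt y v) ≠ m → v.Pos (aeval y (monomial s (q.coeff s)) * π ^ (-m))) := by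
    intro s hs
    have h2 : v.ord (aeval y (monomial s (q.coeff s)) * π ^ (-m)) =
        pr (ex s) (wt y v) - m := by
      have hc : q.coeff s ≠ 0 := mem_support_iff.1 hs
      have hc' : algebraMap ℂ L (q.coeff s) ≠ 0 := by
        rwa [Ne, map_eq_zero_iff _ (algebraMap ℂ L).injective]
      rw [aeval_mon, v.map_mul _ _ (mul_ne_zero hc' (ch_ne hy _)) (zpow_ne_zero _ hπ),
        v.map_mul _ _ hc' (ch_ne hy _),
        v.const _ hc, ord_ch hy, v.ord_zpow hπ, h1]
      ring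
    have h3 := h s hs
    exact ⟨Or.inr (by rw [h2]; omega), fun h4 => Or.inr (by rw [h2]; omega)⟩
  have hsum : aeval y q * π ^ (-m) =
      ∑ s ∈ q.support, aeval y (monomial s (q.coeff s)) * π ^ (-m) := by
    conv_lhs => rw [q.as_sum, map_sum, Finset.sum_mul]
  constructor
  · rw [hsum]
    exact v.O.sum_mem fun s hs => (hterm s hs).1
  · have h5 : (Phi' hy hπ h1 (part (wt y v) m q) : L) =
        ∑ s ∈ q.support with pr (ex s) (wt y v) = m,
          aeval y (monomial s (q.coeff s)) * π ^ (-m) := by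
      rw [part, map_sum]
      push_cast
      refine Finset.sum_congr rfl fun s hs => ?_
      rw [Phi'_monomial, (Finset.mem_filter.1 hs).2]
    rw [hsum, h5, ← Finset.sum_filter_add_sum_filter_not q.support
      (fun s => pr (ex s) (wt y v) = m), add_sub_cancel_left]
    have h6 : ∀ S : Finset (Fin n →₀ ℕ), S ⊆ q.support → (∀ s ∈ S, pr (ex s) (wt y v) ≠ m) →
        v.Pos (∑ s ∈ S, aeval y (monomial s (q.coeff s)) * π ^ (-m)) := by
      intro S
      induction S using Finset.induction_on with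
      | empty => intro _ _; exact Or.inl (by simp)
      | insert a S ha ih =>
        intro hS hm
        rw [Finset.sum_insert ha]
        exact v.pos_add ((hterm a (hS (Finset.mem_insert_self a S))).2
          (hm a (Finset.mem_insert_self a S)))
          (ih (fun x hx => hS (Finset.mem_insert_of_mem hx))
            fun x hx => hm x (Finset.mem_insert_of_mem hx))
    exact h6 _ (Finset.filter_subset _ _) fun s hs => (Finset.mem_filter.1 hs).2

end phi

/-- some logarithmic derivative of the equation has the least possible order -/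
theorem exists_index {g : HypGerm d L} {v : DVal L} (h : Inn g.E (wt g.y v)) :
    ∃ k : Fin (d + 1), aeval g.y (X k * pderiv k g.F) ≠ 0 ∧
      v.ord (aeval g.y (X k * pderiv k g.F)) = phi (expo g.F) (wt g.y v) := by
  classical
  set u := wt g.y v with hu
  set m : ℤ := phi (expo g.F) u with hm
  obtain ⟨hm1, hm2⟩ := phi_expo g.Fne u
  rw [← hm] at hm1 hm2
  obtain ⟨π, hπ, h1⟩ := v.surj
  have hy := g.yne
  let 𝔭 : Ideal (MvPolynomial (Fin (d + 1)) ℂ) := (mvI v).comap (Phi' hy hπ h1)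
  have hlead : lead u g.F = part u m g.F := lead_eq hm1 hm2
  have hF0 : aeval g.y g.F = 0 := (g.ker _).2 dvd_rfl
  have hJ : lead u g.F ∈ 𝔭 := by
    rw [hlead]
    change v.Pos _
    obtain ⟨h2, h3⟩ := reg_mul_zpow' hy hπ h1 hm2
    rw [hF0, zero_mul] at h3
    have h5 : (Phi' hy hπ h1 (part u m g.F) : L) =
        (-1) * (0 - (Phi' hy hπ h1 (part u m g.F) : L)) := by ring
    rw [h5]
    refine v.pos_mul_left ?_ h3
    exact v.reg_neg v.reg_one
  have h𝔭 : 𝔭.IsPrime := Ideal.IsPrime.comap _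
  have hX : ∀ i, (X i : MvPolynomial (Fin (d + 1)) ℂ) ∉ 𝔭 := by
    intro i hi
    have h2 : (Phi' hy hπ h1 (X i) : L) = g.y i * π ^ (-v.ord (g.y i)) := by
      rw [Phi', coe_eval₂Hom, eval₂_X]
    have h3 : v.Pos (g.y i * π ^ (-v.ord (g.y i))) := by
      rw [← h2]
      exact hi
    rcases h3 with h3 | h3
    · exact mul_ne_zero (hy i) (zpow_ne_zero _ hπ) h3
    · rw [v.map_mul _ _ (hy i) (zpow_ne_zero _ hπ), v.ord_zpow hπ, h1] at h3
      omega
  obtain ⟨ξ, hξ𝔭, hξ⟩ : ∃ ξ ∈ zeroLocus ℂ 𝔭, ∀ i, ξ i ≠ 0 := by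
    by_contra h2
    push Not at h2
    have h3 : (∏ i, (X i : MvPolynomial (Fin (d + 1)) ℂ)) ∈ vanishingIdeal ℂ (zeroLocus ℂ 𝔭) := by
      rw [mem_vanishingIdeal_iff]
      intro ξ hξ
      obtain ⟨i, hi⟩ := h2 ξ hξ
      rw [map_prod]
      exact Finset.prod_eq_zero (Finset.mem_univ i) (by rw [aeval_X, hi])
    rw [vanishingIdeal_zeroLocus_eq_radical, h𝔭.radical, h𝔭.prod_mem_iff] at h3
    obtain ⟨i, -, hi⟩ := h3
    exact hX i hi
  have hev : ∀ q ∈ 𝔭, eval ξ q = 0 := by
    intro q hq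
    have := mem_zeroLocus_iff.1 hξ𝔭 q hq
    rwa [← coe_aeval_eq_eval]
  obtain ⟨i, hi⟩ := g.nondeg u h ξ hξ (hev _ hJ)
  have hM : X i * pderiv i (lead u g.F) ∉ 𝔭 := by
    intro h2
    have h3 := hev _ h2
    rw [map_mul, eval_X] at h3
    exact mul_ne_zero (hξ i) hi h3
  have hsup : ∀ t ∈ (X i * pderiv i g.F).support, m ≤ pr (ex t) u := fun t ht =>
    hm2 t (support_euler _ _ ht)
  obtain ⟨h4, h5⟩ := reg_mul_zpow' hy hπ h1 hsup
  rw [← hu, ← euler_part, ← hlead] at h5
  have h6 : (⟨_, h4⟩ : v.O) ∉ mvI v := by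
    intro h7
    apply hM
    change v.Pos (Phi' hy hπ h1 (X i * pderiv i (lead u g.F)) : L)
    have h8 : (Phi' hy hπ h1 (X i * pderiv i (lead u g.F)) : L) =
        aeval g.y (X i * pderiv i g.F) * π ^ (-m) + (-1) *
          (aeval g.y (X i * pderiv i g.F) * π ^ (-m) -
            (Phi' hy hπ h1 (X i * pderiv i (lead u g.F)) : L)) := by ring
    rw [h8]
    exact v.pos_add h7 (v.pos_mul_left (v.reg_neg v.reg_one) h5)
  obtain ⟨h7, h8⟩ := ord_eq_zero_of_notMem h6
  have h9 : aeval g.y (X i * pderiv i g.F) ≠ 0 := left_ne_zero_of_mul h7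
  refine ⟨i, h9, ?_⟩
  change v.ord (aeval g.y (X i * pderiv i g.F) * π ^ (-m)) = 0 at h8
  rw [v.map_mul _ _ h9 (zpow_ne_zero _ hπ), v.ord_zpow hπ, h1] at h8
  omega

theorem det_h (g : HypGerm d L) (k : Fin (d + 1)) :
    (Matrix.of fun (j i : Fin g.X.d) => g.X.T.D j (g.y (k.succAbove (g.e i)))).det =
      (∏ i, g.y (k.succAbove (g.e i))) * ((-1) ^ (k : ℕ) * aeval g.y (X k * pderiv k g.F)) := by
  rw [← g.res k, ← Matrix.det_submatrix_equiv_self g.e (Matrix.of fun (j i : Fin d) =>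
    g.X.T.D (g.e.symm j) (g.y (k.succAbove i)) / g.y (k.succAbove i)), ← Matrix.det_mul_row]
  congr 1
  ext j i
  simp only [Matrix.of_apply, Matrix.submatrix_apply, Equiv.symm_apply_apply]
  rw [mul_div_cancel₀ _ (g.yne _)]

theorem ord_sign (v : DVal L) (k : ℕ) : v.ord ((-1 : L) ^ k) = 0 := by
  have h : ((-1 : L) ^ k) = algebraMap ℂ L ((-1) ^ k) := by simp
  rw [h]
  exact v.const _ (pow_ne_zero _ (by norm_num))

theorem can_low {g : HypGerm d L} {v : DVal L} (h : Inn g.E (wt g.y v))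
    (A : Matrix (Fin g.X.d) (Fin g.X.d) L) (hA0 : A.det ≠ 0)
    (hA : ∀ i, Preserves v (∑ j, A i j • g.X.T.D j)) :
    -1 - phi (expo g.F) (wt g.y v) ≤ v.ord A.det := by
  obtain ⟨k, hk0, hk⟩ := exists_index h
  have hp : (∏ i, g.y (k.succAbove (g.e i))) ≠ 0 := Finset.prod_ne_zero_iff.2 fun i _ => g.yne _
  have hs : ((-1 : L) ^ (k : ℕ)) ≠ 0 := pow_ne_zero _ (by simp)
  have h1 := gji v g.X.T.D A hA0 hA (fun i => g.y (k.succAbove (g.e i))) (fun i => g.yne _)
    (by rw [det_h]; exact mul_ne_zero hp (mul_ne_zero hs hk0))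
  rw [det_h, v.map_mul _ _ hp (mul_ne_zero hs hk0), v.map_mul _ _ hs hk0, ord_sign, hk,
    v.ord_prod _ _ fun i _ => g.yne _] at h1
  omega

end Pool.Agent.Helper43K9.NH
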